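import Pool.Agent.MP_f2c8fe_an.Defs

/-!
The Lorentz space as a space of classes of measurable functions.
-/

open MeasureTheory
open scoped ENNReal NNReal

namespace Pool.Agent.MP_f2c8fe_an

/-- The Lorentz space `L^{p,q}(μ)`: the linear span of the classes of measurable functions
with finite quasi-norm. -/
noncomputable def lorentzSpace {α : Type*} [MeasurableSpace α] (μ : Measure α) (p q : ℝ) :
    Submodule ℂ (α →ₘ[μ] ℂ) :=
  Submodule.span ℂ {f | lorentzNorm μ p q f < ⊤}

/-- A linear operator from `L^{p,q}(μ)` to the classes of measurable functions modulo null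
sets. -/
abbrev LOp {α : Type*} [MeasurableSpace α] (μ : Measure α) (p q : ℝ) : Type _ :=
  lorentzSpace μ p q →ₗ[ℂ] (α →ₘ[μ] ℂ)

/-- `T` commutes with all translations: if `g = f (· - h)` a.e. then `T g = (T f) (· - h)` a.e. -/
def LTransInv {α : Type*} [MeasurableSpace α] [Sub α] {μ : Measure α} {p q : ℝ}
    (T : LOp μ p q) : Prop :=
  ∀ (h : α) (f g : lorentzSpace μ p q),
    (∀ᵐ x ∂μ, g.1 x = f.1 (x - h)) → ∀ᵐ x ∂μ, T g x = T f (x - h)

/-- `T` is bounded from the quasi-norm `M` to the quasi-norm `N`: `N (T f) ≤ C * M f` for all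
`f` in the domain. -/
def LBounded {α : Type*} [MeasurableSpace α] {μ : Measure α} {p q : ℝ} (T : LOp μ p q)
    (M N : (α → ℂ) → ℝ≥0∞) : Prop :=
  ∃ C : ℝ≥0, ∀ f : lorentzSpace μ p q, N (T f) ≤ C * M f.1

end Pool.Agent.MP_f2c8fe_an
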