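import Mathlib
import Pool.Agent.MP_f2c8fe_an.Sum
import Pool.Agent.MP_f2c8fe_an.SR.Defs

/-!
Dyadic form of the Lorentz quasi-norms.
-/

open MeasureTheory
open scoped ENNReal NNReal

namespace Pool.Agent.MP_f2c8fe_an.SR

/-- real powers of two -/
noncomputable def tw (x : ℝ) : ℝ≥0∞ := (2 : ℝ≥0∞) ^ x

lemma tw_ne_top (x : ℝ) : tw x ≠ ⊤ := by
  simp [tw, ENNReal.rpow_eq_top_iff]

lemma tw_ne_zero (x : ℝ) : tw x ≠ 0 := by
  simp [tw, ENNReal.rpow_eq_zero_iff]

lemma tw_pos (x : ℝ) : 0 < tw x := pos_iff_ne_zero.2 (tw_ne_zero x)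

lemma tw_add (x y : ℝ) : tw (x + y) = tw x * tw y :=
  ENNReal.rpow_add x y (by norm_num) (by norm_num)

lemma tw_rpow (x y : ℝ) : tw x ^ y = tw (x * y) := (ENNReal.rpow_mul 2 x y).symm

lemma tw_zero : tw 0 = 1 := ENNReal.rpow_zero

lemma tw_one : tw 1 = 2 := ENNReal.rpow_one 2

lemma tw_mono {x y : ℝ} (h : x ≤ y) : tw x ≤ tw y :=
  ENNReal.rpow_le_rpow_of_exponent_le (by norm_num) h

lemma tw_lt {x y : ℝ} (h : x < y) : tw x < tw y :=
  ENNReal.rpow_lt_rpow_of_exponent_lt (by norm_num) (by norm_num) h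

lemma tw_eq (x : ℝ) : tw x = ENNReal.ofReal (2 ^ x) := by
  rw [tw, ← ENNReal.ofReal_rpow_of_pos (by norm_num), ENNReal.ofReal_ofNat]

lemma tw_nat (x : ℝ) (j : ℕ) : tw x ^ j = tw (x * j) := by
  rw [← ENNReal.rpow_natCast, tw_rpow]

lemma exists_Ico {y : ℝ≥0∞} (h0 : y ≠ 0) (h1 : y ≠ ⊤) :
    ∃ k : ℤ, tw k ≤ y ∧ y < tw (k + 1) := by
  obtain ⟨k, hk⟩ := ENNReal.exists_mem_Ico_zpow (y := 2) h0 h1 (by norm_num) (by norm_num)
  refine ⟨k, ?_, ?_⟩
  · rw [tw, ENNReal.rpow_intCast]; exact hk.1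
  · have : ((k : ℝ) + 1) = ((k + 1 : ℤ) : ℝ) := by push_cast; rfl
    rw [tw, this, ENNReal.rpow_intCast]; exact hk.2

lemma exists_Ioc {y : ℝ≥0∞} (h0 : y ≠ 0) (h1 : y ≠ ⊤) :
    ∃ k : ℤ, tw k < y ∧ y ≤ tw (k + 1) := by
  obtain ⟨k, hk⟩ := ENNReal.exists_mem_Ioc_zpow (y := 2) h0 h1 (by norm_num) (by norm_num)
  refine ⟨k, ?_, ?_⟩
  · rw [tw, ENNReal.rpow_intCast]; exact hk.1
  · have : ((k : ℝ) + 1) = ((k + 1 : ℤ) : ℝ) := by push_cast; rfl
    rw [tw, this, ENNReal.rpow_intCast]; exact hk.2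

/-- sum of the geometric series with ratio two to the minus q -/
noncomputable def geo (q : ℝ) : ℝ≥0∞ := (1 - tw (-q))⁻¹

lemma geo_ne_top {q : ℝ} (hq : 0 < q) : geo q ≠ ⊤ := by
  rw [geo, ENNReal.inv_ne_top]
  have : tw (-q) < 1 := by rw [← tw_zero]; exact tw_lt (by linarith)
  exact (tsub_pos_of_lt this).ne'

lemma geo_ne_zero (q : ℝ) : geo q ≠ 0 := by
  rw [geo, ENNReal.inv_ne_zero]
  exact ne_top_of_le_ne_top ENNReal.one_ne_top tsub_le_self

lemma sum_le_geo {q : ℝ} (hq : 0 < q) (y : ℝ≥0∞) :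
    ∑' k : ℤ, (if tw k ≤ y then tw (k * q) else 0) ≤ geo q * y ^ q := by
  by_cases h0 : y = 0
  · subst h0
    have : ∀ k : ℤ, ¬ tw k ≤ 0 := fun k => not_le.2 (tw_pos _)
    simp [this]
  by_cases h1 : y = ⊤
  · subst h1
    rw [ENNReal.top_rpow_of_pos hq, ENNReal.mul_top (geo_ne_zero q)]
    exact le_top
  obtain ⟨k, hk, hk'⟩ := exists_Ico h0 h1
  have hinj : Function.Injective fun j : ℕ => k - (j : ℤ) := fun a b h => by
    simp only at h; omega
  rw [← hinj.tsum_eq]
  · calc ∑' j : ℕ, (if tw ((k - (j : ℤ) : ℤ) : ℝ) ≤ y then tw (((k - (j : ℤ) : ℤ) : ℝ) * q) else 0)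
        ≤ ∑' j : ℕ, tw (-q) ^ j * tw (k * q) := by
          refine ENNReal.tsum_le_tsum fun j => ?_
          have : tw (((k - (j : ℤ) : ℤ) : ℝ) * q) = tw (-q) ^ j * tw (k * q) := by
            rw [tw_nat, ← tw_add]
            congr 1
            push_cast
            ring
          split_ifs
          · exact this.le
          · exact zero_le
      _ = geo q * tw (k * q) := by rw [ENNReal.tsum_mul_right, ENNReal.tsum_geometric, geo]
      _ ≤ geo q * y ^ q := by
          rw [← tw_rpow]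
          gcongr
  · intro l hl
    have h2 : tw l ≤ y := by
      by_contra h
      simp [h] at hl
    have h3 : l ≤ k := by
      by_contra h
      have : (k : ℝ) + 1 ≤ l := by exact_mod_cast (by omega : k + 1 ≤ l)
      exact absurd (h2.trans_lt hk') (not_lt.2 (tw_mono this))
    exact ⟨(k - l).toNat, by simp only; omega⟩

lemma rpow_le_sum {q : ℝ} (hq : 0 < q) (y : ℝ≥0∞) :
    y ^ q ≤ ∑' k : ℤ, (if tw k < y then tw ((k + 1) * q) else 0) := by
  by_cases h0 : y = 0
  · subst h0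
    rw [ENNReal.zero_rpow_of_pos hq]
    exact zero_le
  by_cases h1 : y = ⊤
  · subst h1
    have h2 : ∀ k : ℤ, tw k < ⊤ := fun k => (tw_ne_top _).lt_top
    simp only [h2, if_true]
    have hinj : Function.Injective fun j : ℕ => (j : ℤ) := fun a b h => by simpa using h
    refine le_trans ?_ (ENNReal.tsum_comp_le_tsum_of_injective hinj _)
    refine le_trans le_top (le_trans (le_of_eq ?_)
      (ENNReal.tsum_le_tsum (f := fun _ : ℕ => 1) fun j => ?_))
    · exact (ENNReal.tsum_const_eq_top_of_ne_zero one_ne_zero).symm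
    · rw [← tw_zero]
      exact tw_mono (by positivity)
  obtain ⟨k, hk, hk'⟩ := exists_Ioc h0 h1
  refine le_trans ?_ (ENNReal.le_tsum k)
  rw [if_pos hk, ← tw_rpow]
  gcongr

/-- the truncated power integral -/
noncomputable def cut (r : ℝ) (d : ℝ≥0∞) (t : ℝ) : ℝ≥0∞ :=
  if ENNReal.ofReal t < d then ENNReal.ofReal (t ^ (r - 1)) else 0

lemma measurable_cut (r : ℝ) (d : ℝ≥0∞) : Measurable (cut r d) := by
  unfold cut
  refine Measurable.ite ?_ ?_ measurable_const
  · exact measurableSet_lt ENNReal.measurable_ofReal measurable_const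
  · exact ENNReal.measurable_ofReal.comp (measurable_id.pow_const _)

lemma lintegral_cut_fin {r : ℝ} (hr : 0 < r) {d : ℝ} (hd : 0 ≤ d) :
    ENNReal.ofReal r * ∫⁻ t in Set.Ioi (0 : ℝ), cut r (ENNReal.ofReal d) t
      = ENNReal.ofReal d ^ r := by
  have h := lintegral_rpow_eq_lintegral_meas_lt_mul (Measure.dirac ()) (f := fun _ : Unit => d)
    (Filter.Eventually.of_forall fun _ => hd) aemeasurable_const hr
  rw [lintegral_const, measure_univ, mul_one] at h
  rw [ENNReal.ofReal_rpow_of_nonneg hd hr.le, h]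
  congr 1
  refine setLIntegral_congr_fun measurableSet_Ioi fun t ht => ?_
  have ht0 : 0 < t := ht
  simp only [cut, ENNReal.ofReal_lt_ofReal_iff_of_nonneg ht0.le]
  by_cases h1 : t < d <;> simp [h1]

lemma lintegral_cut {r : ℝ} (hr : 0 < r) (d : ℝ≥0∞) :
    ENNReal.ofReal r * ∫⁻ t in Set.Ioi (0 : ℝ), cut r d t = d ^ r := by
  by_cases h1 : d = ⊤
  · subst h1
    rw [ENNReal.top_rpow_of_pos hr]
    refine ENNReal.eq_top_of_forall_nnreal_le fun K => ?_
    have h2 := lintegral_cut_fin hr (d := (K : ℝ) ^ (1 / r)) (by positivity)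
    rw [ENNReal.ofReal_rpow_of_nonneg (by positivity) hr.le, ← Real.rpow_mul K.coe_nonneg,
      one_div_mul_cancel hr.ne', Real.rpow_one, ENNReal.ofReal_coe_nnreal] at h2
    rw [← h2]
    gcongr with t
    unfold cut
    rw [if_pos ENNReal.ofReal_lt_top]
    split_ifs
    · exact le_rfl
    · exact zero_le
  · rw [← ENNReal.ofReal_toReal h1]
    exact lintegral_cut_fin hr ENNReal.toReal_nonneg

variable {α : Type*} [MeasurableSpace α]

/-- distribution function -/
noncomputable def dd (μ : Measure α) (f : α → ℂ) (s : ℝ≥0∞) : ℝ≥0∞ := μ {x | s < ‖f x‖ₑ}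

/-- normalised dyadic distribution -/
noncomputable def X (μ : Measure α) (p : ℝ) (f : α → ℂ) (k : ℤ) : ℝ≥0∞ :=
  tw (k * p) * dd μ f (tw k)

/-- dyadic sum -/
noncomputable def S (μ : Measure α) (p q : ℝ) (f : α → ℂ) : ℝ≥0∞ := ∑' k, X μ p f k ^ (q / p)

lemma dd_congr {μ : Measure α} {f g : α → ℂ} (h : f =ᵐ[μ] g) (s : ℝ≥0∞) : dd μ f s = dd μ g s := by
  refine measure_congr ?_
  filter_upwards [h] with x hx
  show (s < ‖f x‖ₑ) = (s < ‖g x‖ₑ)
  rw [hx]

lemma X_congr {μ : Measure α} {f g : α → ℂ} (h : f =ᵐ[μ] g) (p : ℝ) (k : ℤ) :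
    X μ p f k = X μ p g k := by rw [X, X, dd_congr h]

lemma S_congr {μ : Measure α} {f g : α → ℂ} (h : f =ᵐ[μ] g) (p q : ℝ) :
    S μ p q f = S μ p q g := by simp only [S, X_congr h]

lemma dd_anti (μ : Measure α) (f : α → ℂ) {s s' : ℝ≥0∞} (h : s ≤ s') : dd μ f s' ≤ dd μ f s :=
  measure_mono fun _ hx => lt_of_le_of_lt h hx

lemma lt_dd {μ : Measure α} {f : α → ℂ} {t : ℝ} {s : ℝ≥0∞} (h : s < rearr μ f t) :
    ENNReal.ofReal t < dd μ f s := by
  by_contra h1
  exact absurd h (not_lt.2 (sInf_le (not_lt.1 h1)))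

lemma le_rearr' {μ : Measure α} {f : α → ℂ} {t : ℝ} {s : ℝ≥0∞} (h : ENNReal.ofReal t < dd μ f s) :
    s ≤ rearr μ f t := by
  refine le_sInf fun s' hs' => ?_
  by_contra h1
  exact absurd (h.trans_le ((dd_anti μ f (not_le.1 h1).le).trans hs')) (lt_irrefl _)

lemma lorentz_rpow {μ : Measure α} {f : α → ℂ} {p q : ℝ} (hq : 0 < q) :
    lorentzNorm μ p q f ^ q
      = ∫⁻ t in Set.Ioi (0 : ℝ), ENNReal.ofReal (t ^ (q / p - 1)) * rearr μ f t ^ q := by
  rw [lorentzNorm, ← ENNReal.rpow_mul, one_div_mul_cancel hq.ne', ENNReal.rpow_one]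
  refine setLIntegral_congr_fun measurableSet_Ioi fun t ht => ?_
  have ht0 : 0 < t := ht
  rw [ENNReal.mul_rpow_of_nonneg _ _ hq.le, ENNReal.ofReal_rpow_of_nonneg (by positivity) hq.le,
    ← Real.rpow_mul ht0.le, Real.rpow_sub_one ht0.ne', ENNReal.ofReal_div_of_pos ht0,
    one_div_mul_eq_div, div_eq_mul_inv, div_eq_mul_inv (ENNReal.ofReal _), mul_right_comm]

lemma X_rpow {μ : Measure α} {f : α → ℂ} {p q : ℝ} (hp : 0 < p) (hq : 0 < q) (k : ℤ) :
    X μ p f k ^ (q / p) = tw (k * q) * dd μ f (tw k) ^ (q / p) := by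
  rw [X, ENNReal.mul_rpow_of_nonneg _ _ (by positivity), tw_rpow]
  congr 2
  field_simp

lemma lorentz_le_S {μ : Measure α} (f : α → ℂ) {p q : ℝ} (hp : 0 < p) (hq : 0 < q) :
    ENNReal.ofReal (q / p) * lorentzNorm μ p q f ^ q ≤ tw q * S μ p q f := by
  have hr : 0 < q / p := by positivity
  rw [lorentz_rpow hq]
  calc ENNReal.ofReal (q / p) *
        ∫⁻ t in Set.Ioi (0 : ℝ), ENNReal.ofReal (t ^ (q / p - 1)) * rearr μ f t ^ q
      ≤ ENNReal.ofReal (q / p) * ∫⁻ t in Set.Ioi (0 : ℝ),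
          ∑' k : ℤ, tw ((k + 1) * q) * cut (q / p) (dd μ f (tw k)) t := by
        gcongr with t
        refine (mul_le_mul_right (rpow_le_sum hq _) _).trans ?_
        rw [← ENNReal.tsum_mul_left]
        refine ENNReal.tsum_le_tsum fun k => ?_
        split_ifs with h
        · rw [cut, if_pos (lt_dd h), mul_comm]
        · simp
    _ = tw q * S μ p q f := by
        rw [lintegral_tsum fun k => ((measurable_cut _ _).const_mul _).aemeasurable, S,
          ← ENNReal.tsum_mul_left, ← ENNReal.tsum_mul_left]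
        refine tsum_congr fun k => ?_
        rw [lintegral_const_mul _ (measurable_cut _ _), mul_left_comm, lintegral_cut hr,
          X_rpow hp hq, ← mul_assoc, ← tw_add]
        congr 2
        ring

lemma S_le_lorentz {μ : Measure α} (f : α → ℂ) {p q : ℝ} (hp : 0 < p) (hq : 0 < q) :
    S μ p q f ≤ ENNReal.ofReal (q / p) * geo q * lorentzNorm μ p q f ^ q := by
  have hr : 0 < q / p := by positivity
  rw [lorentz_rpow hq]
  calc S μ p q f = ENNReal.ofReal (q / p) * ∫⁻ t in Set.Ioi (0 : ℝ),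
          ∑' k : ℤ, tw (k * q) * cut (q / p) (dd μ f (tw k)) t := by
        rw [lintegral_tsum fun k => ((measurable_cut _ _).const_mul _).aemeasurable, S,
          ← ENNReal.tsum_mul_left]
        refine tsum_congr fun k => ?_
        rw [lintegral_const_mul _ (measurable_cut _ _), mul_left_comm, lintegral_cut hr,
          X_rpow hp hq]
    _ ≤ _ := by
        rw [mul_assoc, ← lintegral_const_mul' _ _ (geo_ne_top hq)]
        gcongr with t
        rw [mul_left_comm]
        refine le_trans ?_ (mul_le_mul_right (sum_le_geo hq _) _)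
        rw [← ENNReal.tsum_mul_left]
        refine ENNReal.tsum_le_tsum fun k => ?_
        unfold cut
        split_ifs with h h'
        · rw [mul_comm]
        · exact absurd (le_rearr' h) h'
        · simp
        · simp

lemma lorentz_lt_top_iff {μ : Measure α} (f : α → ℂ) {p q : ℝ} (hp : 0 < p) (hq : 0 < q) :
    lorentzNorm μ p q f < ⊤ ↔ S μ p q f < ⊤ := by
  constructor
  · intro h
    refine (S_le_lorentz f hp hq).trans_lt (ENNReal.mul_lt_top (ENNReal.mul_lt_top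
      ENNReal.ofReal_lt_top (geo_ne_top hq).lt_top) ?_)
    exact ENNReal.rpow_lt_top_of_nonneg hq.le h.ne
  · intro h
    have h1 := (lorentz_le_S (μ := μ) f hp hq).trans_lt (ENNReal.mul_lt_top (tw_ne_top q).lt_top h)
    by_contra h2
    rw [not_lt, top_le_iff] at h2
    rw [h2, ENNReal.top_rpow_of_pos hq, ENNReal.mul_top (by simpa using div_pos hq hp)] at h1
    exact lt_irrefl _ h1

lemma tsum_X_le {μ : Measure α} {f : α → ℂ} (hf : Measurable f) {p : ℝ} (hp : 0 < p) :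
    ∑' k, X μ p f k ≤ geo p * ∫⁻ x, ‖f x‖ₑ ^ p ∂μ := by
  have hm : ∀ k : ℤ, MeasurableSet {x | tw k < ‖f x‖ₑ} := fun k =>
    measurableSet_lt measurable_const hf.enorm
  calc ∑' k, X μ p f k
      = ∫⁻ x, ∑' k : ℤ, {x | tw k < ‖f x‖ₑ}.indicator (fun _ => tw (k * p)) x ∂μ := by
        rw [lintegral_tsum fun k => (measurable_const.indicator (hm k)).aemeasurable]
        refine tsum_congr fun k => ?_
        rw [lintegral_indicator_const (hm k), X, dd]
    _ ≤ _ := by
        rw [← lintegral_const_mul' _ _ (geo_ne_top hp)]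
        gcongr with x
        refine le_trans (ENNReal.tsum_le_tsum fun k => ?_) (sum_le_geo hp ‖f x‖ₑ)
        by_cases h : tw k < ‖f x‖ₑ
        · rw [Set.indicator_of_mem (by exact h), if_pos h.le]
        · rw [Set.indicator_of_notMem (by exact h)]
          exact zero_le

lemma dd_le_weak {μ : Measure α} (f : α → ℂ) {p : ℝ} (hp : 0 < p) (s : ℝ≥0∞) :
    s ^ p * dd μ f s ≤ weakNorm μ p f ^ p := by
  refine ENNReal.mul_le_of_forall_lt fun a ha b hb => ?_
  by_cases hb0 : b = 0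
  · simp [hb0]
  have hbt : b ≠ ⊤ := hb.ne_top
  have ht : 0 < b.toReal := ENNReal.toReal_pos hb0 hbt
  have h1 : s ≤ rearr μ f b.toReal := le_rearr' (by rwa [ENNReal.ofReal_toReal hbt])
  have h2 : ENNReal.ofReal (b.toReal ^ (1 / p)) * s ≤ weakNorm μ p f :=
    le_trans (by gcongr) (le_iSup₂ (f := fun t (_ : t ∈ Set.Ioi (0 : ℝ)) =>
      ENNReal.ofReal (t ^ (1 / p)) * rearr μ f t) b.toReal ht)
  have h3 := ENNReal.rpow_le_rpow h2 hp.le
  rw [ENNReal.mul_rpow_of_nonneg _ _ hp.le, ENNReal.ofReal_rpow_of_nonneg (by positivity) hp.le,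
    ← Real.rpow_mul ht.le, one_div_mul_cancel hp.ne', Real.rpow_one,
    ENNReal.ofReal_toReal hbt] at h3
  rw [mul_comm]
  exact le_trans (by gcongr) h3

lemma X_le_weak {μ : Measure α} (f : α → ℂ) {p : ℝ} (hp : 0 < p) (k : ℤ) :
    X μ p f k ≤ weakNorm μ p f ^ p := by
  rw [X, ← tw_rpow]
  exact dd_le_weak f hp _

lemma tsum_rpow_le {ι : Type*} (x : ι → ℝ≥0∞) {r : ℝ} (hr : 1 ≤ r) :
    ∑' k, x k ^ r ≤ (∑' k, x k) ^ r := by
  calc ∑' k, x k ^ r ≤ ∑' k, x k * (∑' k, x k) ^ (r - 1) := by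
        refine ENNReal.tsum_le_tsum fun k => ?_
        have : x k ^ r = x k * x k ^ (r - 1) := by
          conv_lhs => rw [show r = 1 + (r - 1) by ring,
            ENNReal.rpow_add_of_nonneg _ _ zero_le_one (by linarith), ENNReal.rpow_one]
        rw [this]
        exact mul_le_mul_right (ENNReal.rpow_le_rpow (ENNReal.le_tsum k) (by linarith)) _
    _ = _ := by
        rw [ENNReal.tsum_mul_right]
        conv_rhs => rw [show r = 1 + (r - 1) by ring,
          ENNReal.rpow_add_of_nonneg _ _ zero_le_one (by linarith), ENNReal.rpow_one]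

lemma S_le_Lp {μ : Measure α} {f : α → ℂ} (hf : Measurable f) {p q : ℝ} (hp : 0 < p)
    (hq : p ≤ q) : S μ p q f ≤ (geo p * ∫⁻ x, ‖f x‖ₑ ^ p ∂μ) ^ (q / p) :=
  (tsum_rpow_le _ ((one_le_div hp).2 hq)).trans
    (ENNReal.rpow_le_rpow (tsum_X_le hf hp) (div_nonneg (by linarith) hp.le))

lemma dd_add (μ : Measure α) (f g : α → ℂ) (s : ℝ≥0∞) :
    dd μ (f + g) (s + s) ≤ dd μ f s + dd μ g s := by
  refine le_trans (measure_mono fun x hx => ?_) (measure_union_le _ _)
  by_contra h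
  simp only [Set.mem_union, Set.mem_ofPred_eq, not_or, not_lt] at h
  exact absurd hx (not_lt.2 ((enorm_add_le _ _).trans (add_le_add h.1 h.2)))

lemma tw_succ (k : ℤ) : tw ((k + 1 : ℤ) : ℝ) = tw k + tw k := by
  push_cast
  rw [tw_add, tw_one, mul_two]

lemma X_add (μ : Measure α) (p : ℝ) (f g : α → ℂ) (k : ℤ) :
    X μ p (f + g) (k + 1) ≤ tw p * (X μ p f k + X μ p g k) := by
  rw [X, X, X, tw_succ, ← mul_add, ← mul_assoc, ← tw_add]
  have : ((k + 1 : ℤ) : ℝ) * p = p + k * p := by push_cast; ring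
  rw [this]
  exact mul_le_mul_right (dd_add μ f g _) _

lemma S_add_lt {μ : Measure α} {p q : ℝ} (hp : 0 < p) (hq : 0 < q) {f g : α → ℂ}
    (hf : S μ p q f < ⊤) (hg : S μ p q g < ⊤) : S μ p q (f + g) < ⊤ := by
  have hr : 0 < q / p := by positivity
  rw [S, ← (Equiv.addRight (1 : ℤ)).tsum_eq]
  calc ∑' k, X μ p (f + g) (Equiv.addRight (1 : ℤ) k) ^ (q / p)
      ≤ ∑' k, (tw p * 2) ^ (q / p) * (X μ p f k ^ (q / p) + X μ p g k ^ (q / p)) := by
        refine ENNReal.tsum_le_tsum fun k => ?_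
        refine (ENNReal.rpow_le_rpow (X_add μ p f g k) hr.le).trans ?_
        rcases le_total (X μ p f k) (X μ p g k) with h | h
        · calc (tw p * (X μ p f k + X μ p g k)) ^ (q / p) ≤ (tw p * 2 * X μ p g k) ^ (q / p) := by
                rw [mul_assoc, two_mul]
                gcongr
            _ ≤ _ := by
                rw [ENNReal.mul_rpow_of_nonneg _ _ hr.le]
                gcongr
                exact le_add_self
        · calc (tw p * (X μ p f k + X μ p g k)) ^ (q / p) ≤ (tw p * 2 * X μ p f k) ^ (q / p) := by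
                rw [mul_assoc, two_mul]
                gcongr
            _ ≤ _ := by
                rw [ENNReal.mul_rpow_of_nonneg _ _ hr.le]
                gcongr
                exact le_self_add
    _ < ⊤ := by
        rw [ENNReal.tsum_mul_left, ENNReal.tsum_add]
        exact ENNReal.mul_lt_top (ENNReal.rpow_lt_top_of_nonneg hr.le
          (ENNReal.mul_ne_top (tw_ne_top _) (by norm_num))) (ENNReal.add_lt_top.2 ⟨hf, hg⟩)

lemma S_smul_lt {μ : Measure α} {p q : ℝ} (hp : 0 < p) (hq : 0 < q) (c : ℂ) {f : α → ℂ}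
    (hf : S μ p q f < ⊤) : S μ p q (c • f) < ⊤ := by
  have hr : 0 < q / p := by positivity
  obtain ⟨j, hj⟩ : ∃ j : ℤ, ‖c‖ₑ ≤ tw j := by
    by_cases h0 : ‖c‖ₑ = 0
    · exact ⟨0, by simp [h0]⟩
    · obtain ⟨k, -, hk⟩ := exists_Ioc h0 enorm_ne_top
      exact ⟨k + 1, by push_cast; exact hk⟩
  have h1 : ∀ k, X μ p (c • f) (k + j) ≤ tw (j * p) * X μ p f k := by
    intro k
    rw [X, X, ← mul_assoc, ← tw_add]
    have : ((k + j : ℤ) : ℝ) * p = j * p + k * p := by push_cast; ring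
    rw [this]
    refine mul_le_mul_right (measure_mono fun x hx => ?_) _
    by_contra h
    simp only [Set.mem_ofPred_eq, not_lt] at h hx
    refine absurd hx (not_lt.2 ?_)
    rw [Pi.smul_apply, enorm_smul]
    push_cast
    rw [tw_add, mul_comm]
    gcongr
  rw [S, ← (Equiv.addRight j).tsum_eq]
  calc ∑' k, X μ p (c • f) (Equiv.addRight j k) ^ (q / p)
      ≤ ∑' k, tw (j * p) ^ (q / p) * X μ p f k ^ (q / p) := by
        refine ENNReal.tsum_le_tsum fun k => ?_
        rw [← ENNReal.mul_rpow_of_nonneg _ _ hr.le]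
        exact ENNReal.rpow_le_rpow (h1 k) hr.le
    _ < ⊤ := by
        rw [ENNReal.tsum_mul_left]
        exact ENNReal.mul_lt_top (ENNReal.rpow_lt_top_of_nonneg hr.le (tw_ne_top _)) hf

theorem mem_lorentzSpace {μ : Measure α} {p q : ℝ} (hp : 0 < p) (hq : 0 < q) (f : α →ₘ[μ] ℂ) :
    f ∈ lorentzSpace μ p q ↔ lorentzNorm μ p q f < ⊤ := by
  refine ⟨fun h => ?_, fun h => Submodule.subset_span h⟩
  rw [lorentz_lt_top_iff _ hp hq]
  induction h using Submodule.span_induction with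
  | mem f hf => exact (lorentz_lt_top_iff _ hp hq).1 hf
  | zero =>
    rw [S_congr AEEqFun.coeFn_zero]
    have : ∀ k, X μ p (0 : α → ℂ) k = 0 := fun k => by simp [X, dd]
    simp [S, this, ENNReal.zero_rpow_of_pos (div_pos hq hp)]
  | add f g _ _ hf hg =>
    rw [S_congr (AEEqFun.coeFn_add f g)]
    exact S_add_lt hp hq hf hg
  | smul c f _ hf =>
    rw [S_congr (AEEqFun.coeFn_smul c f)]
    exact S_smul_lt hp hq c hf

end Pool.Agent.MP_f2c8fe_an.SR
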