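import Mathlib
import Pool.Agent.MP_f2c8fe_an.SR.Dy

/-!
Sums of far translates.
-/

open MeasureTheory
open scoped ENNReal NNReal

namespace Pool.Agent.MP_f2c8fe_an.SR

variable {E : Type*} [NormedAddCommGroup E] [MeasurableSpace E] [BorelSpace E]

lemma exists_tail (ν : Measure E) {A : Set E} (hA : MeasurableSet A) (hfin : ν A ≠ ⊤)
    {δ : ℝ≥0∞} (hδ : 0 < δ) (R : ℝ) : ∃ m : ℕ, R ≤ m ∧ ν (A ∩ {x | (m : ℝ) ≤ ‖x‖}) ≤ δ := by
  have hm : ∀ m : ℕ, MeasurableSet (A ∩ {x : E | (m : ℝ) ≤ ‖x‖}) := fun m =>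
    hA.inter (measurableSet_le measurable_const measurable_norm)
  have hanti : Antitone fun m : ℕ => A ∩ {x : E | (m : ℝ) ≤ ‖x‖} := by
    intro a b hab x hx
    have hab' : (a : ℝ) ≤ b := by exact_mod_cast hab
    have h2 : (b : ℝ) ≤ ‖x‖ := hx.2
    exact ⟨hx.1, hab'.trans h2⟩
  have h1 := tendsto_measure_iInter_atTop (μ := ν) (fun m => (hm m).nullMeasurableSet) hanti
    ⟨0, ne_top_of_le_ne_top hfin (measure_mono Set.inter_subset_left)⟩
  have h2 : (⋂ m : ℕ, A ∩ {x : E | (m : ℝ) ≤ ‖x‖}) = ∅ := by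
    rw [Set.eq_empty_iff_forall_notMem]
    intro x hx
    obtain ⟨m, hm⟩ := exists_nat_gt ‖x‖
    exact absurd (Set.mem_iInter.1 hx m).2 (not_le.2 hm)
  rw [h2, measure_empty] at h1
  obtain ⟨m, h3, h4⟩ := ((h1.eventually (gt_mem_nhds hδ)).and
    (Filter.eventually_ge_atTop ⌈R⌉₊)).exists
  exact ⟨m, (Nat.le_ceil R).trans (by exact_mod_cast h4), le_of_lt h3⟩

lemma measure_shift (μ : Measure E) [μ.IsAddRightInvariant] (A : Set E) (h : E) :
    μ {x | x - h ∈ A} = μ A := by
  simp only [sub_eq_add_neg]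
  exact measure_preimage_add_right μ (-h) A

lemma dd_shift (μ : Measure E) [μ.IsAddRightInvariant] (f : E → ℂ) (h : E) (s : ℝ≥0∞) :
    dd μ (fun x => f (x - h)) s = dd μ f s :=
  measure_shift μ {x | s < ‖f x‖ₑ} h

lemma S_shift (μ : Measure E) [μ.IsAddRightInvariant] (p q : ℝ) (f : E → ℂ) (h : E) :
    S μ p q (fun x => f (x - h)) = S μ p q f := by
  simp only [S, X, dd_shift]

/-- distribution of a sum of translates with disjoint supports -/
lemma dd_sum_le (μ : Measure E) [μ.IsAddRightInvariant] {ι : Type*} [Fintype ι] (g : E → ℂ)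
    {R : ℝ} (hg : ∀ x, R ≤ ‖x‖ → g x = 0) (c : ι → ℂ) (h : ι → E)
    (hh : ∀ i j, i ≠ j → 2 * R ≤ ‖h i - h j‖) (s : ℝ≥0∞) :
    dd μ (fun x => ∑ i, c i * g (x - h i)) s ≤ ∑ i, dd μ (fun x => c i * g x) s := by
  classical
  calc dd μ (fun x => ∑ i, c i * g (x - h i)) s
      ≤ μ (⋃ i ∈ Finset.univ, {x | x - h i ∈ {y | s < ‖c i * g y‖ₑ}}) := by
        refine measure_mono fun x hx => ?_
        simp only [Set.mem_ofPred_eq] at hx
        simp only [Set.mem_iUnion, Set.mem_ofPred_eq]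
        by_cases h0 : ∀ i, g (x - h i) = 0
        · simp [h0] at hx
        · push Not at h0
          obtain ⟨i, hi⟩ := h0
          refine ⟨i, Finset.mem_univ _, ?_⟩
          rw [Finset.sum_eq_single i] at hx
          · exact hx
          · intro j _ hj
            have h1 : ‖x - h i‖ < R := by
              by_contra h1
              exact hi (hg _ (not_lt.1 h1))
            have h2 := hh j i hj
            have h3 : ‖h j - h i‖ ≤ ‖x - h i‖ + ‖x - h j‖ := by
              have := norm_sub_le (x - h i) (x - h j)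
              rwa [sub_sub_sub_cancel_left] at this
            rw [hg _ (by linarith), mul_zero]
          · simp
    _ ≤ _ := by
        refine (measure_biUnion_finset_le _ _).trans (Finset.sum_le_sum fun i _ => ?_)
        exact (measure_shift μ _ _).le

variable [NormedSpace ℝ E]

/-- lower bound for the distribution of a sum of far translates -/
lemma sum_dd_le (μ : Measure E) [μ.IsAddRightInvariant] {e : E} (he : ‖e‖ = 1) {ι : Type*}
    [Fintype ι] {G : E → ℂ} (hG : Measurable G) (hfin : ∀ s, s ≠ 0 → dd μ G s ≠ ⊤)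
    (c : ι → ℂ) (R : ℝ) (B : ℝ≥0∞)
    (hB : ∀ h : ι → E, (∀ i j, i ≠ j → 2 * R ≤ ‖h i - h j‖) →
      dd μ (fun x => ∑ i, c i * G (x - h i)) 2⁻¹ ≤ B) :
    ∑ i, dd μ (fun x => c i * G x) 1 ≤ B := by
  classical
  set σ : ℝ := ∑ i, ‖c i‖ with hσ
  have hσ0 : 0 ≤ σ := Finset.sum_nonneg fun _ _ => norm_nonneg _
  set η : ℝ := 1 / (2 * σ + 2) with hη
  have hη0 : 0 < η := by positivity
  have hησ : σ * η ≤ 1 / 2 := by
    rw [hη, mul_one_div, div_le_div_iff₀ (by positivity) (by norm_num)]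
    linarith
  set A : Set E := {x | η < ‖G x‖} with hA
  have hAm : MeasurableSet A := measurableSet_lt measurable_const hG.norm
  have hAfin : μ A ≠ ⊤ := by
    have h1 := hfin (ENNReal.ofReal η) (by simpa using hη0)
    refine ne_top_of_le_ne_top h1 (measure_mono fun x hx => ?_)
    simp only [Set.mem_ofPred_eq]
    rw [← ofReal_norm, ENNReal.ofReal_lt_ofReal_iff_of_nonneg hη0.le]
    exact hx
  refine ENNReal.le_of_forall_pos_le_add fun ε hε _ => ?_
  set δ : ℝ≥0∞ := ε / (2 * Fintype.card ι + 1) with hδ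
  have hδ0 : 0 < δ := ENNReal.div_pos (by simpa using hε.ne') (by finiteness)
  have hδε : (2 * Fintype.card ι + 1) * δ ≤ ε := ENNReal.mul_div_le
  obtain ⟨m, hRm, hm⟩ := exists_tail μ hAm hAfin hδ0 R
  set Z : Set E := A ∩ {x | (m : ℝ) ≤ ‖x‖} with hZ
  have hZm : MeasurableSet Z := hAm.inter (measurableSet_le measurable_const measurable_norm)
  set h : ι → E := fun i => ((2 * m * (Fintype.equivFin ι i : ℕ) : ℕ) : ℝ) • e with hh
  have hsep : ∀ i j, i ≠ j → 2 * (m : ℝ) ≤ ‖h i - h j‖ := by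
    intro i j hij
    have h1 : ((Fintype.equivFin ι i : ℕ) : ℤ) ≠ (Fintype.equivFin ι j : ℕ) := by
      intro h1
      exact hij ((Fintype.equivFin ι).injective (Fin.ext (by exact_mod_cast h1)))
    have h2 : (1 : ℝ) ≤ |((Fintype.equivFin ι i : ℕ) : ℝ) - (Fintype.equivFin ι j : ℕ)| := by
      exact_mod_cast Int.one_le_abs (sub_ne_zero.2 h1)
    simp only [hh]
    rw [← sub_smul, norm_smul, he, mul_one, Real.norm_eq_abs]
    push_cast
    rw [← mul_sub, abs_mul, abs_of_nonneg (by positivity : (0 : ℝ) ≤ 2 * m)]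
    exact le_mul_of_one_le_right (by positivity) h2
  set Ai : ι → Set E := fun i => {x | 1 < ‖c i * G x‖ₑ} with hAi
  have hAim : ∀ i, MeasurableSet (Ai i) := fun i =>
    measurableSet_lt measurable_const (hG.const_mul _).enorm
  have hAi1 : ∀ i x, x ∈ Ai i → 1 < ‖c i * G x‖ := by
    intro i x hx
    simp only [hAi, Set.mem_ofPred_eq] at hx
    rwa [← ofReal_norm, ENNReal.one_lt_ofReal] at hx
  have hci : ∀ i, ‖c i‖ ≤ σ := fun i =>
    Finset.single_le_sum (f := fun i => ‖c i‖) (fun _ _ => norm_nonneg _) (Finset.mem_univ i)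
  have hAiA : ∀ i x, x ∈ Ai i → x ∈ A := by
    intro i x hx
    have h1 := hAi1 i x hx
    by_contra h2
    have h3 : ‖G x‖ ≤ η := not_lt.1 h2
    rw [norm_mul] at h1
    have : ‖c i‖ * ‖G x‖ ≤ σ * η := by gcongr; exact hci i
    linarith
  set Bi : ι → Set E := fun i => {x | x - h i ∈ Ai i \ Z} with hBi
  have hBim : ∀ i, MeasurableSet (Bi i) := fun i =>
    (measurable_sub_const _) ((hAim i).diff hZm)
  have hnear : ∀ i x, x ∈ Bi i → ‖x - h i‖ < m := by
    intro i x hx
    by_contra h1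
    exact hx.2 ⟨hAiA i _ hx.1, not_lt.1 h1⟩
  have hfar : ∀ i j x, j ≠ i → x ∈ Bi i → (m : ℝ) ≤ ‖x - h j‖ := by
    intro i j x hj hx
    have h1 := hnear i x hx
    have h2 := hsep j i hj
    have h3 : ‖h j - h i‖ ≤ ‖x - h i‖ + ‖x - h j‖ := by
      have := norm_sub_le (x - h i) (x - h j)
      rwa [sub_sub_sub_cancel_left] at this
    linarith
  have hdisj : Set.PairwiseDisjoint (↑(Finset.univ : Finset ι)) Bi := by
    intro i _ j _ hij
    rw [Function.onFun, Set.disjoint_left]
    intro x h1 h2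
    exact absurd (hnear j x h2) (not_lt.2 (hfar i j x hij.symm h1))
  have hsub : (⋃ i ∈ Finset.univ, Bi i) ⊆ {x | 2⁻¹ < ‖∑ i, c i * G (x - h i)‖ₑ} ∪
      ⋃ j ∈ Finset.univ, {x | x - h j ∈ Z} := by
    intro x hx
    simp only [Set.mem_iUnion] at hx
    obtain ⟨i, -, hx⟩ := hx
    by_cases hbad : ∃ j, x - h j ∈ Z
    · right
      obtain ⟨j, hj⟩ := hbad
      simp only [Set.mem_iUnion]
      exact ⟨j, Finset.mem_univ _, hj⟩
    left
    push Not at hbad
    have h1 : ‖∑ j ∈ Finset.univ.erase i, c j * G (x - h j)‖ ≤ σ * η := by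
      refine (norm_sum_le _ _).trans ?_
      calc ∑ j ∈ Finset.univ.erase i, ‖c j * G (x - h j)‖
          ≤ ∑ j ∈ Finset.univ.erase i, ‖c j‖ * η := by
            refine Finset.sum_le_sum fun j hj => ?_
            rw [norm_mul]
            gcongr
            by_contra h2
            exact hbad j ⟨not_le.1 h2, hfar i j x (Finset.ne_of_mem_erase hj) hx⟩
        _ ≤ ∑ j, ‖c j‖ * η :=
            Finset.sum_le_sum_of_subset_of_nonneg (Finset.subset_univ _) fun _ _ _ => by positivity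
        _ = σ * η := by rw [← Finset.sum_mul]
    have h2 := hAi1 i _ hx.1
    have h3 := norm_sub_le (∑ j, c j * G (x - h j)) (∑ j ∈ Finset.univ.erase i, c j * G (x - h j))
    rw [← Finset.add_sum_erase _ _ (Finset.mem_univ i), add_sub_cancel_right,
      Finset.add_sum_erase _ (fun j => c j * G (x - h j)) (Finset.mem_univ i)] at h3
    simp only [Set.mem_ofPred_eq]
    rw [← ofReal_norm, ← ENNReal.ofReal_ofNat, ← ENNReal.ofReal_inv_of_pos (by norm_num),
      ENNReal.ofReal_lt_ofReal_iff_of_nonneg (by norm_num)]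
    linarith
  have hZsum : μ (⋃ j ∈ Finset.univ, {x | x - h j ∈ Z}) ≤ Fintype.card ι * δ := by
    refine (measure_biUnion_finset_le _ _).trans ?_
    simp only [measure_shift, Finset.sum_const, Finset.card_univ, nsmul_eq_mul]
    gcongr
  calc ∑ i, dd μ (fun x => c i * G x) 1 ≤ ∑ i, (μ (Bi i) + δ) := by
        refine Finset.sum_le_sum fun i _ => ?_
        have h1 : μ (Bi i) = μ (Ai i \ Z) := measure_shift μ _ _
        rw [h1]
        calc dd μ (fun x => c i * G x) 1 = μ (Ai i) := rfl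
          _ ≤ μ (Ai i \ Z ∪ Z) := measure_mono (Set.subset_sdiff_union _ _)
          _ ≤ _ := (measure_union_le _ _).trans (by gcongr)
    _ = μ (⋃ i ∈ Finset.univ, Bi i) + Fintype.card ι * δ := by
        rw [Finset.sum_add_distrib, measure_biUnion_finset hdisj fun i _ => hBim i]
        simp
    _ ≤ B + Fintype.card ι * δ + Fintype.card ι * δ := by
        gcongr
        refine (measure_mono hsub).trans ((measure_union_le _ _).trans ?_)
        gcongr
        exact hB h fun i j hij => le_trans (by linarith) (hsep i j hij)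
    _ ≤ B + ε := by
        rw [add_assoc, ← two_mul, ← mul_assoc]
        gcongr
        exact le_trans (by gcongr; exact le_self_add) hδε

end Pool.Agent.MP_f2c8fe_an.SR
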