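import Mathlib
import Pool.Agent.MP_f2c8fe_an.Sum

/-!
The kernel on a cyclic group with a bound for the order of the group.
-/

open Finset

namespace Pool.Agent.MP_f2c8fe_an.SR

open Classical in
theorem kernel_w {p : ℝ} (hp1 : 1 < p) (hp2 : p < 2) (M w : ℕ) (hwodd : Odd w) (hw2 : 2 ≤ w)
    (hwM : 2 * M ≤ w) (hwp : (M : ℝ) ^ 2 ≤ (w : ℝ) ^ (2 - p)) :
    ∃ (N : ℕ) (_ : NeZero N) (κ : ZMod N → ℂ) (n : Fin M → ℕ), N = (w ^ 6) ^ M ∧
      (∀ x, ‖κ x‖ ≤ M) ∧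
      (∀ f : ZMod N → ℂ, ((univ.filter fun x => 2 < ‖cv κ f x‖).card : ℝ) ≤ 4 * ∑ y, ‖f y‖ ^ p) ∧
      (∀ j, 0 < n j) ∧ (∀ i j, i < j → 2 * n i ≤ n j) ∧
      ∀ j, ∃ A : Finset ℕ, n j ≤ 2 * A.card ∧
        ∀ m ∈ A, 2 * m ≤ N ∧ ((n j : ℝ) ^ (1 / p))⁻¹ / 2 ≤ ‖κ m‖ := by
  have hp0 : 0 < p := by linarith
  have hW : (1 : ℝ) ≤ w := by exact_mod_cast (by omega : 1 ≤ w)
  have hW0 : (0 : ℝ) < w := by linarith
  set L : ℕ := w ^ 6 with hL
  have hL2 : 2 ≤ L := le_trans hw2 (Nat.le_self_pow (by norm_num) w)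
  have hL0 : 0 < L := by omega
  have hN : NeZero (L ^ M) := ⟨by positivity⟩
  set d : Fin M → ZMod (L ^ M) := fun j => ((L ^ (M - 1 - j) : ℕ) : ZMod (L ^ M)) with hd
  have hcard : ∀ j : Fin M, Nat.card (rng (d j)) = L ^ ((j : ℕ) + 1) := by
    intro j
    have hj := j.2
    rw [hd, card_rng_zmod, Nat.gcd_eq_right (Nat.pow_dvd_pow _ (by omega)),
      Nat.pow_div (by omega) hL0]
    congr 1
    omega
  have hdd : ∀ i j : Fin M, i ≤ j → d i = d j * (L : ZMod (L ^ M)) ^ ((j : ℕ) - i) := by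
    intro i j hij
    have hj := j.2
    have hij' : (i : ℕ) ≤ j := hij
    simp only [hd]
    push_cast
    rw [← pow_add]
    congr 1
    omega
  have hmono : Monotone fun j => rng (d j) := by
    intro i j hij x hx
    obtain ⟨t, rfl⟩ := mem_rng.1 hx
    exact mem_rng.2 ⟨_, by rw [hdd i j hij, mul_assoc]⟩
  have h2 : IsUnit (2 : ZMod (L ^ M)) := by
    have : IsUnit ((2 : ℕ) : ZMod (L ^ M)) := by
      rw [ZMod.isUnit_iff_coprime, Nat.coprime_two_left]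
      exact (hwodd.pow).pow
    exact_mod_cast this
  have hnil : IsNilpotent (L : ZMod (L ^ M)) := ⟨M, by exact_mod_cast ZMod.natCast_self (L ^ M)⟩
  set ψ : AddChar (ZMod (L ^ M)) ℂ := ZMod.stdAddChar with hψ
  have hprim : ψ.IsPrimitive := ZMod.isPrimitive_stdAddChar _
  set a : Fin M → ℝ := fun j => ((L ^ ((j : ℕ) + 1) : ℕ) : ℝ) ^ (1 / p) with ha
  have ha0 : ∀ j, 0 < a j := fun j => Real.rpow_pos_of_pos (by positivity) _
  have hap : ∀ j, a j ^ p = Nat.card (rng (d j)) := by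
    intro j
    rw [hcard, ha, ← Real.rpow_mul (by positivity), one_div_mul_cancel hp0.ne', Real.rpow_one]
  have hgrow : ∀ i j, i < j → (w : ℝ) * a i ≤ a j := by
    intro i j hij
    have hij' : (i : ℕ) < j := hij
    have hai := ha0 i
    rw [← Real.rpow_le_rpow_iff (by positivity) (ha0 j).le hp0,
      Real.mul_rpow hW0.le (ha0 i).le, hap, hap, hcard, hcard]
    have h1 : (w : ℝ) ^ p ≤ L := by
      calc (w : ℝ) ^ p ≤ (w : ℝ) ^ ((6 : ℕ) : ℝ) :=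
            Real.rpow_le_rpow_of_exponent_le hW (by push_cast; linarith)
        _ = L := by rw [Real.rpow_natCast, hL]; push_cast; rfl
    have h3 : L * L ^ ((i : ℕ) + 1) ≤ L ^ ((j : ℕ) + 1) := by
      rw [← pow_succ']
      exact Nat.pow_le_pow_right hL0 (by omega)
    calc (w : ℝ) ^ p * ((L ^ ((i : ℕ) + 1) : ℕ) : ℝ) ≤ L * ((L ^ ((i : ℕ) + 1) : ℕ) : ℝ) := by
          gcongr
      _ ≤ _ := by exact_mod_cast h3
  have hW1 : (M : ℝ) ^ 2 * (w : ℝ) ^ (p - 2) ≤ 1 := by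
    rw [show p - 2 = -(2 - p) by ring, Real.rpow_neg hW0.le, ← div_eq_mul_inv,
      div_le_one (Real.rpow_pos_of_pos hW0 _)]
    exact hwp
  have hW2 : ∀ i, (M : ℝ) ^ 2 * ((w : ℝ) ^ (p - 1)) ^ 2 ≤ √(Nat.card (rng (d i))) := by
    intro i
    have h1 : (w : ℝ) ^ (2 - p) ≤ w := by
      simpa using Real.rpow_le_rpow_of_exponent_le hW (show 2 - p ≤ 1 by linarith)
    have h3 : (w : ℝ) ^ (p - 1) ≤ w := by
      simpa using Real.rpow_le_rpow_of_exponent_le hW (show p - 1 ≤ 1 by linarith)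
    have h4 : 0 ≤ (w : ℝ) ^ (p - 1) := Real.rpow_nonneg hW0.le _
    apply Real.le_sqrt_of_sq_le
    rw [hcard]
    have h5 : L ≤ L ^ ((i : ℕ) + 1) := Nat.le_self_pow (by omega) _
    calc ((M : ℝ) ^ 2 * ((w : ℝ) ^ (p - 1)) ^ 2) ^ 2 ≤ ((w : ℝ) * (w : ℝ) ^ 2) ^ 2 := by
          gcongr
          exact hwp.trans h1
      _ = (L : ℝ) := by rw [hL]; push_cast; ring
      _ ≤ ((L ^ ((i : ℕ) + 1) : ℕ) : ℝ) := by exact_mod_cast h5
  have hcross : ∀ i j, i < j → ∀ y z,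
      ‖corr (chirp ψ (d i)) (chirp ψ (d j)) y z‖ ≤ √(Nat.card (rng (d i))) := by
    intro i j hij y z
    have hij' : (i : ℕ) < j := hij
    rw [hdd i j hij.le]
    refine corr_cross hprim h2 _ _ _ _ (IsNilpotent.isUnit_one_sub ?_)
    exact hnil.pow_of_pos (by omega)
  refine ⟨L ^ M, hN, fun x => ∑ j, ((a j)⁻¹ : ℂ) * chirp ψ (d j) x,
    fun j => L ^ ((j : ℕ) + 1), rfl, ?_, ?_, fun j => by positivity, ?_, ?_⟩
  · intro x
    refine (norm_sum_le _ _).trans ?_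
    have h1 : ∀ j ∈ (univ : Finset (Fin M)), ‖((a j)⁻¹ : ℂ) * chirp ψ (d j) x‖ ≤ 1 := by
      intro j _
      rw [norm_mul, norm_inv, Complex.norm_real, Real.norm_of_nonneg (ha0 j).le]
      have h3 : 1 ≤ a j := Real.one_le_rpow
        (by exact_mod_cast Nat.one_le_pow _ _ hL0) (by positivity)
      exact mul_le_one₀ (inv_le_one_of_one_le₀ h3) (norm_nonneg _) (norm_chirp_le ψ _ _)
    simpa using Finset.sum_le_sum h1
  · intro f
    have h := weak_finite hp1 hp2 hW (fun j => rng (d j)) hmono (fun j => chirp ψ (d j))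
      (fun j x hx => chirp_zero ψ hx)
      (fun j y z => (corr_auto hprim h2 (d j) y z).trans (by split_ifs <;> rfl))
      hcross a ha0 hap hgrow hW1 hW2 f
    have e : ∀ x, cv (fun x => ∑ j, ((a j)⁻¹ : ℂ) * chirp ψ (d j) x) f x
        = ∑ j, ((a j)⁻¹ : ℂ) * cv (chirp ψ (d j)) f x := by
      intro x
      simp only [cv, Finset.sum_mul, Finset.mul_sum]
      rw [Finset.sum_comm]
      simp only [mul_assoc]
    simp only [e]
    exact h
  · intro i j hij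
    have hij' : (i : ℕ) < j := hij
    calc 2 * L ^ ((i : ℕ) + 1) ≤ L * L ^ ((i : ℕ) + 1) := Nat.mul_le_mul_right _ hL2
      _ = L ^ ((i : ℕ) + 1 + 1) := by rw [← pow_succ']
      _ ≤ _ := Nat.pow_le_pow_right hL0 (by omega)
  · intro j
    have hj := j.2
    have hD : 0 < L ^ (M - 1 - j) := by positivity
    refine ⟨(range ((L ^ ((j : ℕ) + 1) + 1) / 2)).image fun t => L ^ (M - 1 - j) * t, ?_, ?_⟩
    · rw [Finset.card_image_of_injective _ (mul_right_injective₀ hD.ne'), Finset.card_range]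
      show L ^ ((j : ℕ) + 1) ≤ _
      omega
    · intro m hm
      obtain ⟨t, ht, rfl⟩ := Finset.mem_image.1 hm
      have ht' := Finset.mem_range.1 ht
      constructor
      · have h1 : 2 * t ≤ L ^ ((j : ℕ) + 1) := by omega
        calc 2 * (L ^ (M - 1 - j) * t) = L ^ (M - 1 - j) * (2 * t) := by ring
          _ ≤ L ^ (M - 1 - j) * L ^ ((j : ℕ) + 1) := Nat.mul_le_mul_left _ h1
          _ = L ^ M := by rw [← pow_add]; congr 1; omega
      · refine norm_sum_ge hW (by exact_mod_cast hwM) (fun j => rng (d j))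
          (fun j => chirp ψ (d j)) (fun j x hx => chirp_zero ψ hx)
          (fun j x hx => norm_chirp ψ hx) a ha0 hgrow j _ ?_
        exact mem_rng.2 ⟨t, by simp [hd]⟩

open Classical in
theorem kernel_log {p : ℝ} (hp1 : 1 < p) (hp2 : p < 2) : ∃ c : ℕ, ∀ m : ℕ,
    ∃ (N : ℕ) (_ : NeZero N) (κ : ZMod N → ℂ) (n : Fin (2 ^ m) → ℕ) (Λ : ℕ),
      1 ≤ Λ ∧ Λ ≤ c * (2 ^ m * (m + 1)) ∧ N ≤ 2 ^ Λ ∧ (∀ x, N * ‖κ x‖ ≤ 2 ^ Λ) ∧
      (∀ f : ZMod N → ℂ, ((univ.filter fun x => 2 < ‖cv κ f x‖).card : ℝ) ≤ 4 * ∑ y, ‖f y‖ ^ p) ∧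
      (∀ j, 0 < n j) ∧ (∀ i j, i < j → 2 * n i ≤ n j) ∧
      ∀ j, ∃ A : Finset ℕ, n j ≤ 2 * A.card ∧
        ∀ m ∈ A, 2 * m ≤ N ∧ ((n j : ℝ) ^ (1 / p))⁻¹ / 2 ≤ ‖κ m‖ := by
  have h2p : 0 < 2 - p := by linarith
  obtain ⟨J, hJ⟩ := exists_nat_ge (2 / (2 - p))
  rw [div_le_iff₀ h2p] at hJ
  have hJ1 : 1 ≤ J := by
    rcases Nat.eq_zero_or_pos J with h | h
    · rw [h] at hJ
      norm_num at hJ
    · exact h
  refine ⟨6 * J + 13, fun m => ?_⟩
  have hM : 1 ≤ 2 ^ m := Nat.one_le_two_pow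
  have hw1 : 2 ^ (m + 1) ≤ 2 ^ (m * J + 1) :=
    Nat.pow_le_pow_right (by norm_num) (by nlinarith)
  have hw2 : 2 ^ (m * J + 1) + 1 ≤ 2 ^ (m * J + 2) := by
    have : 1 ≤ 2 ^ (m * J + 1) := Nat.one_le_two_pow
    rw [pow_succ 2 (m * J + 1)]
    omega
  obtain ⟨N, hN, κ, n, h1, h2, h3⟩ := kernel_w hp1 hp2 (2 ^ m) (2 ^ (m * J + 1) + 1)
    (Even.add_one ((Nat.even_pow' (by omega)).2 even_two))
    (by rw [pow_succ] at hw1; omega) (by rw [pow_succ] at hw1; omega) (by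
      calc (((2 ^ m : ℕ) : ℝ)) ^ 2 = (2 : ℝ) ^ ((m : ℝ) * 2) := by
            rw [Real.rpow_mul (by norm_num), Real.rpow_natCast, Real.rpow_two]
            push_cast
            rfl
        _ ≤ (2 : ℝ) ^ (((m * J : ℕ) : ℝ) * (2 - p)) := by
            refine Real.rpow_le_rpow_of_exponent_le (by norm_num) ?_
            push_cast
            rw [mul_assoc]
            exact mul_le_mul_of_nonneg_left hJ (Nat.cast_nonneg m)
        _ ≤ _ := by
            rw [Real.rpow_mul (by norm_num), Real.rpow_natCast]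
            refine Real.rpow_le_rpow (by positivity) ?_ h2p.le
            have : 2 ^ (m * J) ≤ 2 ^ (m * J + 1) + 1 := by
              rw [pow_succ]
              omega
            exact_mod_cast this)
  have hN1 : N ≤ 2 ^ ((m * J + 2) * 6 * 2 ^ m) := by
    rw [h1, pow_mul, pow_mul]
    gcongr
  have hN2 : N * 2 ^ m ≤ 2 ^ ((m * J + 2) * 6 * 2 ^ m + m) := by
    rw [pow_add]
    gcongr
  refine ⟨N, hN, κ, n, (m * J + 2) * 6 * 2 ^ m + m, Nat.lt_of_lt_of_le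
    (by positivity : 0 < (m * J + 2) * 6 * 2 ^ m) (Nat.le_add_right _ _), ?_,
    le_trans (Nat.le_mul_of_pos_right _ hM) hN2, fun x => ?_, h3⟩
  · generalize 2 ^ m = M at hM
    nlinarith [Nat.zero_le (M * m), Nat.zero_le (M * J), Nat.mul_le_mul_right m hM]
  · calc N * ‖κ x‖ ≤ N * ((2 ^ m : ℕ) : ℝ) := by gcongr; exact h2 x
      _ ≤ _ := by exact_mod_cast hN2

end Pool.Agent.MP_f2c8fe_an.SR
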