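import Mathlib
import Pool.Agent.MP_f2c8fe_an.SR.Dy

/-!
Two lemmas on sequences: a convolution inequality and a duality argument with integer weights.
-/

open scoped ENNReal NNReal

namespace Pool.Agent.MP_f2c8fe_an.SR

lemma young (F : Finset ℤ) (u y : ℤ → ℝ≥0∞) {σ : ℝ} (hσ : 1 ≤ σ) :
    ∑' j, (∑ k ∈ F, u k * y (j + k)) ^ σ ≤ (∑' j, y j) ^ σ * ∑ k ∈ F, u k ^ σ := by
  have hσ0 : 0 < σ := by linarith
  set Y := ∑' j, y j with hY
  have hYk : ∀ k, ∑' j, y (j + k) = Y := fun k => (Equiv.addRight k).tsum_eq y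
  have hYj : ∀ j, ∑ k ∈ F, y (j + k) ≤ Y := fun j =>
    (ENNReal.sum_le_tsum F).trans (le_of_eq ((Equiv.addLeft j).tsum_eq y))
  calc ∑' j, (∑ k ∈ F, u k * y (j + k)) ^ σ
      ≤ ∑' j, Y ^ (σ - 1) * ∑ k ∈ F, y (j + k) * u k ^ σ := by
        refine ENNReal.tsum_le_tsum fun j => ?_
        have h1 := ENNReal.inner_le_weight_mul_Lp_of_nonneg F hσ (fun k => y (j + k)) u
        have h2 := ENNReal.rpow_le_rpow h1 hσ0.le
        rw [ENNReal.mul_rpow_of_nonneg _ _ hσ0.le, ← ENNReal.rpow_mul, ← ENNReal.rpow_mul,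
          inv_mul_cancel₀ hσ0.ne', ENNReal.rpow_one,
          show (1 - σ⁻¹) * σ = σ - 1 by field_simp] at h2
        simp only [mul_comm (u _)]
        exact h2.trans (mul_le_mul_left (ENNReal.rpow_le_rpow (hYj j) (by linarith)) _)
    _ = _ := by
        rw [ENNReal.tsum_mul_left, Summable.tsum_finsetSum fun _ _ => ENNReal.summable]
        simp only [ENNReal.tsum_mul_right, hYk]
        rw [← Finset.mul_sum, ← mul_assoc]
        congr 1
        conv_rhs => rw [show σ = σ - 1 + 1 by ring,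
          ENNReal.rpow_add_of_nonneg _ _ (by linarith) zero_le_one, ENNReal.rpow_one]

lemma apx_real (F : Finset ℤ) (x w : ℤ → ℝ) (hx : ∀ k, 0 ≤ x k) (hw : ∀ k, 0 < w k) {B σ τ : ℝ}
    (hB : 0 ≤ B) (hσ : 1 < σ) (hτ : τ * (1 - 1 / σ) = 1)
    (h : ∀ N : ℤ → ℕ, ∑ k ∈ F, N k * w k * x k ≤ B * (∑ k ∈ F, (N k * w k) ^ σ) ^ (1 / σ)) :
    ∑ k ∈ F, x k ^ τ ≤ (2 * B) ^ τ := by
  have hσ0 : 0 < σ := by linarith
  have hs1 : 1 / σ < 1 := by rw [div_lt_one hσ0]; exact hσ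
  have hs0 : 0 < 1 / σ := by positivity
  have hτ1 : 1 < τ := by nlinarith
  have hτσ : (τ - 1) * σ = τ := by
    have : τ * (σ - 1) = σ := by
      have h1 : τ * (1 - 1 / σ) * σ = σ := by rw [hτ, one_mul]
      calc τ * (σ - 1) = τ * (1 - 1 / σ) * σ := by field_simp
        _ = σ := h1
    nlinarith
  set a : ℤ → ℝ := fun k => x k ^ (τ - 1) with ha
  have ha0 : ∀ k, 0 ≤ a k := fun k => Real.rpow_nonneg (hx k) _
  set A : ℝ := 1 + ∑ k ∈ F, w k / a k with hA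
  have hA1 : ∀ k ∈ F, w k / a k ≤ A := by
    intro k hk
    have := Finset.single_le_sum (f := fun k => w k / a k)
      (fun k _ => div_nonneg (hw k).le (ha0 k)) hk
    linarith
  have hA0 : 0 < A := by
    have := Finset.sum_nonneg (s := F) (f := fun k => w k / a k)
      fun k _ => div_nonneg (hw k).le (ha0 k)
    linarith
  set N : ℤ → ℕ := fun k => ⌈A * a k / w k⌉₊ with hN
  have hN1 : ∀ k, A * a k ≤ N k * w k := fun k => by
    rw [← div_le_iff₀ (hw k)]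
    exact Nat.le_ceil _
  have hN2 : ∀ k ∈ F, N k * w k ≤ 2 * A * a k := by
    intro k hk
    rcases (ha0 k).eq_or_lt with h0 | h0
    · simp [hN, ← h0]
    · have h1 : w k ≤ A * a k := by
        rw [← div_le_iff₀ h0]
        exact hA1 k hk
      have h2 : (N k : ℝ) < A * a k / w k + 1 :=
        Nat.ceil_lt_add_one (div_nonneg (mul_nonneg hA0.le h0.le) (hw k).le)
      have h3 : (A * a k / w k + 1) * w k = A * a k + w k := by
        field_simp [(hw k).ne']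
      have h4 := mul_le_mul_of_nonneg_right h2.le (hw k).le
      linarith
  set Z : ℝ := ∑ k ∈ F, x k ^ τ with hZ
  have hZ0 : 0 ≤ Z := Finset.sum_nonneg fun k _ => Real.rpow_nonneg (hx k) _
  have h1 : A * Z ≤ ∑ k ∈ F, N k * w k * x k := by
    rw [hZ, Finset.mul_sum]
    refine Finset.sum_le_sum fun k _ => ?_
    have : x k ^ τ = a k * x k := by
      conv_lhs => rw [show τ = τ - 1 + 1 by ring,
        Real.rpow_add_of_nonneg (hx k) (by linarith) zero_le_one, Real.rpow_one]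
    rw [this, ← mul_assoc]
    exact mul_le_mul_of_nonneg_right (hN1 k) (hx k)
  have h2 : (∑ k ∈ F, (N k * w k) ^ σ) ^ (1 / σ) ≤ 2 * A * Z ^ (1 / σ) := by
    have h3 : ∑ k ∈ F, (N k * w k) ^ σ ≤ (2 * A) ^ σ * Z := by
      rw [hZ, Finset.mul_sum]
      refine Finset.sum_le_sum fun k hk => ?_
      refine (Real.rpow_le_rpow (mul_nonneg (Nat.cast_nonneg _) (hw k).le) (hN2 k hk)
        hσ0.le).trans (le_of_eq ?_)
      rw [Real.mul_rpow (by positivity) (ha0 k), ha, ← Real.rpow_mul (hx k), hτσ]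
    refine (Real.rpow_le_rpow (Finset.sum_nonneg fun k _ =>
      Real.rpow_nonneg (mul_nonneg (Nat.cast_nonneg _) (hw k).le) _) h3 hs0.le).trans (le_of_eq ?_)
    rw [Real.mul_rpow (by positivity) hZ0, ← Real.rpow_mul (by positivity),
      mul_one_div_cancel hσ0.ne', Real.rpow_one]
  have h3 : Z ≤ 2 * B * Z ^ (1 / σ) := by
    have h4 := h1.trans ((h N).trans (mul_le_mul_of_nonneg_left h2 hB))
    have h5 : A * Z ≤ A * (2 * B * Z ^ (1 / σ)) := by linarith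
    exact le_of_mul_le_mul_left h5 hA0
  rcases hZ0.eq_or_lt with h0 | h0
  · rw [← h0]
    positivity
  have h4 : Z ^ (1 - 1 / σ) ≤ 2 * B := by
    rw [Real.rpow_sub h0, Real.rpow_one, div_le_iff₀ (Real.rpow_pos_of_pos h0 _)]
    exact h3
  have h5 := Real.rpow_le_rpow (Real.rpow_nonneg hZ0 _) h4 (show 0 ≤ τ by linarith)
  rwa [← Real.rpow_mul hZ0, mul_comm, hτ, Real.rpow_one] at h5

lemma apx (x w : ℤ → ℝ≥0∞) (hx : ∀ k, x k ≠ ⊤) (hw : ∀ k, w k ≠ 0) (hw' : ∀ k, w k ≠ ⊤)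
    {B : ℝ≥0∞} {σ τ : ℝ} (hB : B ≠ ⊤) (hσ : 1 < σ) (hτ : τ * (1 - 1 / σ) = 1)
    (h : ∀ (F : Finset ℤ) (N : ℤ → ℕ),
      ∑ k ∈ F, N k * w k * x k ≤ B * (∑ k ∈ F, (N k * w k) ^ σ) ^ (1 / σ)) :
    ∑' k, x k ^ τ ≤ (2 * B) ^ τ := by
  have hσ0 : 0 < σ := by linarith
  have hs1 : 1 / σ < 1 := by rw [div_lt_one hσ0]; exact hσ
  have hτ0 : 0 < τ := by
    by_contra h0
    nlinarith [not_lt.1 h0]
  rw [ENNReal.tsum_eq_iSup_sum]
  refine iSup_le fun F => ?_
  have hNw : ∀ (N : ℤ → ℕ) (k : ℤ), (N k : ℝ≥0∞) * w k ≠ ⊤ := fun N k =>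
    ENNReal.mul_ne_top (ENNReal.natCast_ne_top _) (hw' k)
  have h1 := apx_real F (fun k => (x k).toReal) (fun k => (w k).toReal)
    (fun k => ENNReal.toReal_nonneg) (fun k => ENNReal.toReal_pos (hw k) (hw' k))
    (B := B.toReal) ENNReal.toReal_nonneg hσ hτ fun N => by
      have h2 : ∀ k ∈ F, ((N k : ℝ≥0∞) * w k) ^ σ ≠ ⊤ := fun k _ =>
        ENNReal.rpow_ne_top_of_nonneg hσ0.le (hNw N k)
      have h3 := ENNReal.toReal_mono (ENNReal.mul_ne_top hB (ENNReal.rpow_ne_top_of_nonneg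
        (by positivity) (ENNReal.sum_ne_top.2 h2))) (h F N)
      rw [ENNReal.toReal_sum fun k _ => ENNReal.mul_ne_top (hNw N k) (hx k), ENNReal.toReal_mul,
        ← ENNReal.toReal_rpow, ENNReal.toReal_sum h2] at h3
      simpa only [ENNReal.toReal_mul, ← ENNReal.toReal_rpow, ENNReal.toReal_natCast] using h3
  have h2 : ∀ k ∈ F, x k ^ τ ≠ ⊤ := fun k _ => ENNReal.rpow_ne_top_of_nonneg hτ0.le (hx k)
  rw [← ENNReal.toReal_le_toReal (ENNReal.sum_ne_top.2 h2) (ENNReal.rpow_ne_top_of_nonneg hτ0.le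
    (ENNReal.mul_ne_top (by norm_num) hB)), ENNReal.toReal_sum h2]
  simpa only [ENNReal.toReal_mul, ← ENNReal.toReal_rpow, ENNReal.toReal_ofNat] using h1

end Pool.Agent.MP_f2c8fe_an.SR
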