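import Mathlib
import Pool.Agent.MP_f2c8fe_an.SR.Far
import Pool.Agent.MP_f2c8fe_an.SR.Seq

/-!
The positive half: a translation invariant operator from `L^{p,q}` to weak `L^p` maps `L^p` into
`L^{p,t}` when `1/t ≤ 1/p - 1/q`.
-/

open MeasureTheory
open scoped ENNReal NNReal

namespace Pool.Agent.MP_f2c8fe_an.SR

section general

variable {α : Type*} [MeasurableSpace α]

lemma coe_sum_smul {μ : Measure α} {ι : Type*} (s : Finset ι) (c : ι → ℂ) (f : ι → α →ₘ[μ] ℂ) :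
    (∑ i ∈ s, c i • f i : α →ₘ[μ] ℂ) =ᵐ[μ] fun x => ∑ i ∈ s, c i * f i x := by
  classical
  induction s using Finset.induction_on with
  | empty =>
    simp only [Finset.sum_empty]
    exact AEEqFun.coeFn_zero
  | insert a s ha ih =>
    simp only [Finset.sum_insert ha]
    filter_upwards [AEEqFun.coeFn_add (c a • f a) (∑ i ∈ s, c i • f i), ih,
      AEEqFun.coeFn_smul (c a) (f a)] with x h1 h2 h3
    rw [h1, Pi.add_apply, h2, h3, Pi.smul_apply, smul_eq_mul]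

lemma dd_mono {μ : Measure α} {f g : α → ℂ} (h : ∀ x, ‖f x‖ₑ ≤ ‖g x‖ₑ) (s : ℝ≥0∞) :
    dd μ f s ≤ dd μ g s :=
  measure_mono fun x hx => lt_of_lt_of_le hx (h x)

lemma X_mono {μ : Measure α} {f g : α → ℂ} (h : ∀ x, ‖f x‖ₑ ≤ ‖g x‖ₑ) (p : ℝ) (k : ℤ) :
    X μ p f k ≤ X μ p g k := mul_le_mul_right (dd_mono h _) _

lemma S_mono {μ : Measure α} {f g : α → ℂ} (h : ∀ x, ‖f x‖ₑ ≤ ‖g x‖ₑ) {p q : ℝ} (hp : 0 < p)
    (hq : 0 < q) : S μ p q f ≤ S μ p q g :=
  ENNReal.tsum_le_tsum fun k => ENNReal.rpow_le_rpow (X_mono h p k) (by positivity)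

/-- the scalar `2^{-k}` -/
noncomputable def sc (k : ℤ) : ℂ := ((2 : ℝ) ^ (-(k : ℝ)) : ℝ)

lemma enorm_sc (k : ℤ) : ‖sc k‖ₑ = tw (-k) := by
  rw [sc, ← ofReal_norm, Complex.norm_real, Real.norm_of_nonneg (by positivity), tw_eq]

lemma dd_sc (μ : Measure α) (G : α → ℂ) (k : ℤ) (y : ℝ) :
    dd μ (fun x => sc k * G x) (tw y) = dd μ G (tw (y + k)) := by
  unfold dd
  congr 1
  ext x
  simp only [Set.mem_ofPred_eq, enorm_mul, enorm_sc]
  have : tw y = tw (-k) * tw (y + k) := by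
    rw [← tw_add]
    congr 1
    ring
  rw [this, ENNReal.mul_lt_mul_iff_right (tw_ne_zero _) (tw_ne_top _)]

lemma dd_ne_top {μ : Measure α} {G : α → ℂ} {p : ℝ} (h : ∀ k, X μ p G k ≠ ⊤) {s : ℝ≥0∞}
    (hs : s ≠ 0) : dd μ G s ≠ ⊤ := by
  by_cases h1 : s = ⊤
  · simp [dd, h1]
  obtain ⟨k, hk, -⟩ := exists_Ico hs h1
  refine ne_top_of_le_ne_top ?_ (dd_anti μ G hk)
  intro h2
  exact h k (by rw [X, h2, ENNReal.mul_top (tw_ne_zero _)])

/-- a measurable function with finite dyadic sum as an element of the Lorentz space -/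
noncomputable def toL {μ : Measure α} {p q : ℝ} (hp : 0 < p) (hq : 0 < q) (g : α → ℂ)
    (hg : Measurable g) (hS : S μ p q g < ⊤) : lorentzSpace μ p q :=
  ⟨AEEqFun.mk g hg.aestronglyMeasurable, (mem_lorentzSpace hp hq _).2
    ((lorentz_lt_top_iff _ hp hq).2 (by rwa [S_congr (AEEqFun.coeFn_mk _ _)]))⟩

lemma coe_toL {μ : Measure α} {p q : ℝ} (hp : 0 < p) (hq : 0 < q) (g : α → ℂ)
    (hg : Measurable g) (hS : S μ p q g < ⊤) : (toL hp hq g hg hS).1 =ᵐ[μ] g :=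
  AEEqFun.coeFn_mk _ _

lemma S_lt_top {μ : Measure α} {p q : ℝ} (hp : 0 < p) (hq : 0 < q) (f : lorentzSpace μ p q) :
    S μ p q f.1 < ⊤ := (lorentz_lt_top_iff _ hp hq).1 ((mem_lorentzSpace hp hq _).1 f.2)

end general

variable {E : Type*} [NormedAddCommGroup E] [NormedSpace ℝ E] [MeasurableSpace E] [BorelSpace E]

theorem key_bdd (μ : Measure E) [μ.IsAddRightInvariant] {e : E} (he : ‖e‖ = 1) {p q : ℝ}
    (hp : 0 < p) (hq : p < q) (T : lorentzSpace μ p q →ₗ[ℂ] (E →ₘ[μ] ℂ))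
    (hT : ∀ (h : E) (f g : lorentzSpace μ p q),
      (∀ᵐ x ∂μ, g.1 x = f.1 (x - h)) → ∀ᵐ x ∂μ, T g x = T f (x - h))
    {K : ℝ≥0∞} (hK : K ≠ ⊤) (H : ∀ f k, X μ p (T f) k ≤ K * S μ p q f.1 ^ (1 / (q / p)))
    (g : lorentzSpace μ p q) {g0 : E → ℂ} (hg0 : Measurable g0) (hgg : g.1 =ᵐ[μ] g0) {R : ℝ}
    (hR : ∀ x, R ≤ ‖x‖ → g0 x = 0) (F : Finset ℤ) (N : ℤ → ℕ) :
    ∑ k ∈ F, N k * tw (-(k * p)) * X μ p (T g) k ≤ tw p * K * (∑' j, X μ p g0 j) *
      (∑ k ∈ F, (N k * tw (-(k * p))) ^ (q / p)) ^ (1 / (q / p)) := by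
  classical
  have hq0 : 0 < q := hp.trans hq
  have hσ : 1 ≤ q / p := (one_le_div hp).2 hq.le
  have hσ0 : 0 < q / p := by positivity
  have hS0 : S μ p q g0 < ⊤ := by
    rw [← S_congr hgg]
    exact S_lt_top hp hq0 g
  have hsum : ∀ φ : ℤ → ℝ≥0∞,
      ∑ i : (Σ k : F, Fin (N k)), φ i.1 = ∑ k ∈ F, N k * φ k := by
    intro φ
    rw [Fintype.sum_sigma]
    simp only [Finset.sum_const, Finset.card_univ, Fintype.card_fin, nsmul_eq_mul]
    exact Finset.sum_coe_sort F fun k => N k * φ k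
  have hfin : ∀ s, s ≠ 0 → dd μ (T g) s ≠ ⊤ := fun s hs =>
    dd_ne_top (p := p) (fun k => ne_top_of_le_ne_top (ENNReal.mul_ne_top hK
      (ENNReal.rpow_ne_top_of_nonneg (by positivity) (S_lt_top hp hq0 g).ne)) (H g k)) hs
  have h1 := sum_dd_le μ he (ι := Σ k : F, Fin (N k)) (T g).stronglyMeasurable.measurable hfin
    (fun i => sc i.1) R (tw p * K * (∑' j, X μ p g0 j) *
      (∑ k ∈ F, (N k * tw (-(k * p))) ^ (q / p)) ^ (1 / (q / p))) ?_
  · refine le_trans (le_of_eq ?_) h1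
    rw [hsum fun k => dd μ (fun x => sc k * T g x) 1]
    refine Finset.sum_congr rfl fun k _ => ?_
    rw [← tw_zero, dd_sc, X, mul_assoc, ← mul_assoc (tw _), ← tw_add, neg_add_cancel, tw_zero,
      one_mul, zero_add]
  intro h hh
  set sh : E → lorentzSpace μ p q := fun a => toL hp hq0 (fun x => g0 (x - a))
    (hg0.comp (measurable_sub_const a)) (by rwa [S_shift]) with hsh
  have hsh1 : ∀ a, (sh a).1 =ᵐ[μ] fun x => g0 (x - a) := fun a => coe_toL _ _ _ _ _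
  have hsh2 : ∀ a, T (sh a) =ᵐ[μ] fun x => T g (x - a) := by
    intro a
    refine hT a g (sh a) ?_
    have h2 : ∀ᵐ x ∂μ, g.1 (x - a) = g0 (x - a) :=
      (measurePreserving_sub_right μ a).quasiMeasurePreserving.ae_eq_comp hgg
    filter_upwards [hsh1 a, h2] with x h3 h4
    rw [h3, h4]
  set f : lorentzSpace μ p q := ∑ i : (Σ k : F, Fin (N k)), sc i.1 • sh (h i) with hf
  have hf1 : f.1 =ᵐ[μ] fun x => ∑ i : (Σ k : F, Fin (N k)), sc i.1 * g0 (x - h i) := by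
    have h2 : f.1 = ∑ i : (Σ k : F, Fin (N k)), sc i.1 • (sh (h i)).1 := by
      rw [hf, Submodule.coe_sum]
      rfl
    rw [h2]
    filter_upwards [coe_sum_smul Finset.univ (fun i : (Σ k : F, Fin (N k)) => sc i.1)
      fun i => (sh (h i)).1, ae_all_iff.2 fun i => hsh1 (h i)] with x h3 h4
    rw [h3]
    exact Finset.sum_congr rfl fun i _ => by rw [h4 i]
  have hf2 : T f =ᵐ[μ] fun x => ∑ i : (Σ k : F, Fin (N k)), sc i.1 * T g (x - h i) := by
    have h2 : T f = ∑ i : (Σ k : F, Fin (N k)), sc i.1 • T (sh (h i)) := by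
      rw [hf, map_sum]
      exact Finset.sum_congr rfl fun i _ => map_smul _ _ _
    rw [h2]
    filter_upwards [coe_sum_smul Finset.univ (fun i : (Σ k : F, Fin (N k)) => sc i.1)
      fun i => T (sh (h i)), ae_all_iff.2 fun i => hsh2 (h i)] with x h3 h4
    rw [h3]
    exact Finset.sum_congr rfl fun i _ => by rw [h4 i]
  have hX : ∀ j : ℤ, X μ p f.1 j ≤ ∑ k ∈ F, N k * tw (-(k * p)) * X μ p g0 (j + k) := by
    intro j
    rw [X_congr hf1, X]
    refine (mul_le_mul_right (dd_sum_le μ g0 hR _ h hh _) _).trans (le_of_eq ?_)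
    rw [hsum fun k => dd μ (fun x => sc k * g0 x) (tw j), Finset.mul_sum]
    refine Finset.sum_congr rfl fun k _ => ?_
    rw [dd_sc, X, mul_left_comm, mul_assoc, ← mul_assoc (tw _), ← tw_add]
    push_cast
    congr 3
    ring
  have hSf : S μ p q f.1 ≤ (∑' j, X μ p g0 j) ^ (q / p) *
      ∑ k ∈ F, (N k * tw (-(k * p))) ^ (q / p) :=
    (ENNReal.tsum_le_tsum fun j => ENNReal.rpow_le_rpow (hX j) hσ0.le).trans
      (young F (fun k => N k * tw (-(k * p))) _ hσ)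
  have h2 := (H f (-1)).trans
    (mul_le_mul_right (ENNReal.rpow_le_rpow hSf (by positivity)) K)
  rw [ENNReal.mul_rpow_of_nonneg _ _ (by positivity), ← ENNReal.rpow_mul,
    mul_one_div_cancel hσ0.ne', ENNReal.rpow_one, X_congr hf2, X] at h2
  have h3 : tw ((-1 : ℤ) : ℝ) = 2⁻¹ := by
    simp [tw, ENNReal.rpow_neg_one]
  rw [h3] at h2
  have h4 := mul_le_mul_right h2 (tw p)
  rw [← mul_assoc, ← tw_add, show p + ((-1 : ℤ) : ℝ) * p = 0 by push_cast; ring, tw_zero,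
    one_mul] at h4
  rw [mul_assoc, mul_assoc]
  exact h4

theorem key_gen (μ : Measure E) [μ.IsAddRightInvariant] {e : E} (he : ‖e‖ = 1) {p q : ℝ}
    (hp : 0 < p) (hq : p < q) (T : lorentzSpace μ p q →ₗ[ℂ] (E →ₘ[μ] ℂ))
    (hT : ∀ (h : E) (f g : lorentzSpace μ p q),
      (∀ᵐ x ∂μ, g.1 x = f.1 (x - h)) → ∀ᵐ x ∂μ, T g x = T f (x - h))
    {K : ℝ≥0∞} (hK : K ≠ ⊤) (H : ∀ f k, X μ p (T f) k ≤ K * S μ p q f.1 ^ (1 / (q / p)))
    (g : lorentzSpace μ p q) (hI : ∫⁻ x, ‖g.1 x‖ₑ ^ p ∂μ ≠ ⊤) (F : Finset ℤ) (N : ℤ → ℕ) :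
    ∑ k ∈ F, N k * tw (-(k * p)) * X μ p (T g) (k + 1) ≤
      tw p * (tw p * K * (geo p * ∫⁻ x, ‖g.1 x‖ₑ ^ p ∂μ)) *
      (∑ k ∈ F, (N k * tw (-(k * p))) ^ (q / p)) ^ (1 / (q / p)) := by
  have hq0 : 0 < q := hp.trans hq
  have hσ0 : 0 < q / p := by positivity
  have hgm : Measurable g.1 := g.1.stronglyMeasurable.measurable
  refine ENNReal.le_of_forall_pos_le_add fun ε hε _ => ?_
  set U : ℝ≥0∞ := ∑ k ∈ F, N k * tw (-(k * p)) with hU
  have hUt : U ≠ ⊤ := ENNReal.sum_ne_top.2 fun k _ =>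
    ENNReal.mul_ne_top (ENNReal.natCast_ne_top _) (tw_ne_top _)
  set M : ℝ≥0∞ := tw p * U * (K * geo p) with hM
  have hMt : M ≠ ⊤ := ENNReal.mul_ne_top (ENNReal.mul_ne_top (tw_ne_top _) hUt)
    (ENNReal.mul_ne_top hK (geo_ne_top hp))
  have hδ0 : 0 < ε / M := ENNReal.div_pos (by simpa using hε.ne') hMt
  have hδε : M * (ε / M) ≤ ε := ENNReal.mul_div_le
  obtain ⟨m, -, hm⟩ := exists_tail (μ.withDensity fun x => ‖g.1 x‖ₑ ^ p) MeasurableSet.univ
    (by rwa [withDensity_apply _ MeasurableSet.univ, Measure.restrict_univ]) hδ0 0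
  set Z : Set E := {x | (m : ℝ) ≤ ‖x‖} with hZ
  have hZm : MeasurableSet Z := measurableSet_le measurable_const measurable_norm
  rw [Set.univ_inter, withDensity_apply _ hZm] at hm
  have hind : ∀ (A : Set E) (x : E), ‖A.indicator g.1 x‖ₑ ≤ ‖g.1 x‖ₑ := fun A x =>
    enorm_indicator_le_enorm_self _ _
  have hSA : ∀ A : Set E, S μ p q (A.indicator g.1) < ⊤ := fun A =>
    (S_mono (hind A) hp hq0).trans_lt (S_lt_top hp hq0 g)
  set g1 := toL hp hq0 (Zᶜ.indicator g.1) (hgm.indicator hZm.compl) (hSA _) with hg1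
  set g2 := toL hp hq0 (Z.indicator g.1) (hgm.indicator hZm) (hSA _) with hg2
  have hc1 : g1.1 =ᵐ[μ] Zᶜ.indicator g.1 := coe_toL _ _ _ _ _
  have hc2 : g2.1 =ᵐ[μ] Z.indicator g.1 := coe_toL _ _ _ _ _
  have hg12 : g = g1 + g2 := by
    refine Subtype.ext (AEEqFun.ext ?_)
    filter_upwards [AEEqFun.coeFn_add g1.1 g2.1, hc1, hc2] with x h1 h2 h3
    rw [Submodule.coe_add, h1, Pi.add_apply, h2, h3, add_comm]
    exact (congrFun (Set.indicator_self_add_compl Z g.1) x).symm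
  have hTg : T g =ᵐ[μ] T g1 + T g2 := by
    have h1 : T g = T g1 + T g2 := by rw [← map_add, ← hg12]
    rw [h1]
    exact AEEqFun.coeFn_add _ _
  have h2 : ∀ k, X μ p (T g2) k ≤ K * geo p * (ε / M) := by
    intro k
    refine (H g2 k).trans ?_
    rw [S_congr hc2, mul_assoc]
    refine mul_le_mul_right ?_ _
    refine (ENNReal.rpow_le_rpow (S_le_Lp (hgm.indicator hZm) hp hq.le) (by positivity)).trans ?_
    rw [← ENNReal.rpow_mul, mul_one_div_cancel hσ0.ne', ENNReal.rpow_one]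
    refine mul_le_mul_right (le_trans (le_of_eq ?_) hm) _
    rw [← lintegral_indicator hZm]
    refine lintegral_congr fun x => ?_
    by_cases hx : x ∈ Z
    · simp [hx]
    · simp [hx, hp]
  have h1 := key_bdd μ he hp hq T hT hK H g1 (hgm.indicator hZm.compl) hc1 (R := m)
    (fun x hx => Set.indicator_of_notMem (fun h : x ∈ Zᶜ => h hx) _) F N
  have h3 : ∑' j, X μ p (Zᶜ.indicator g.1) j ≤ geo p * ∫⁻ x, ‖g.1 x‖ₑ ^ p ∂μ :=
    (ENNReal.tsum_le_tsum fun j => X_mono (hind _) p j).trans (tsum_X_le hgm hp)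
  calc ∑ k ∈ F, N k * tw (-(k * p)) * X μ p (T g) (k + 1)
      ≤ ∑ k ∈ F, N k * tw (-(k * p)) * (tw p * (X μ p (T g1) k + K * geo p * (ε / M))) := by
        refine Finset.sum_le_sum fun k _ => mul_le_mul_right ?_ _
        rw [X_congr hTg]
        exact (X_add μ p _ _ k).trans (by gcongr; exact h2 k)
    _ = tw p * ∑ k ∈ F, N k * tw (-(k * p)) * X μ p (T g1) k + M * (ε / M) := by
        generalize ε / M = δ
        rw [hM, hU, Finset.mul_sum, Finset.mul_sum, Finset.sum_mul, Finset.sum_mul,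
          ← Finset.sum_add_distrib]
        exact Finset.sum_congr rfl fun k _ => by ring
    _ ≤ _ := by
        rw [mul_assoc (tw p)]
        gcongr
        exact h1.trans (by gcongr)

theorem positive (μ : Measure E) [μ.IsAddRightInvariant] {e : E} (he : ‖e‖ = 1) {p q t : ℝ}
    (hp : 0 < p) (hq : p < q) (ht : 0 < t) (hpt : 1 / t ≤ 1 / p - 1 / q)
    (T : lorentzSpace μ p q →ₗ[ℂ] (E →ₘ[μ] ℂ))
    (hT : ∀ (h : E) (f g : lorentzSpace μ p q),
      (∀ᵐ x ∂μ, g.1 x = f.1 (x - h)) → ∀ᵐ x ∂μ, T g x = T f (x - h))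
    (hC : ∃ C : ℝ≥0, ∀ f, weakNorm μ p (T f) ≤ C * lorentzNorm μ p q f.1) :
    ∃ C : ℝ≥0, ∀ f, lorentzNorm μ p t (T f) ≤ C * eLpNorm f.1 (ENNReal.ofReal p) μ := by
  have hq0 : 0 < q := hp.trans hq
  have hσ0 : 0 < q / p := by positivity
  have hσ : 1 < q / p := (one_lt_div hp).2 hq
  obtain ⟨C, hC⟩ := hC
  have ho : ∀ r : ℝ, 0 < r → ENNReal.ofReal (r / p) ≠ 0 := fun r hr => by
    simpa using div_pos hr hp
  have hlor : ∀ (r : ℝ) (f : E → ℂ), 0 < r → lorentzNorm μ p r f ≤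
      (tw r / ENNReal.ofReal (r / p)) ^ (1 / r) * S μ p r f ^ (1 / r) := by
    intro r f hr
    have h1 : lorentzNorm μ p r f ^ r ≤ tw r / ENNReal.ofReal (r / p) * S μ p r f := by
      rw [div_eq_mul_inv, mul_right_comm, ← div_eq_mul_inv,
        ENNReal.le_div_iff_mul_le (Or.inl (ho r hr)) (Or.inl ENNReal.ofReal_ne_top), mul_comm]
      exact lorentz_le_S f hp hr
    have h2 := ENNReal.rpow_le_rpow h1 (show 0 ≤ 1 / r by positivity)
    rwa [← ENNReal.rpow_mul, mul_one_div_cancel hr.ne', ENNReal.rpow_one,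
      ENNReal.mul_rpow_of_nonneg _ _ (by positivity)] at h2
  have hct : ∀ r : ℝ, 0 < r → (tw r / ENNReal.ofReal (r / p)) ^ (1 / r) ≠ ⊤ := fun r hr =>
    ENNReal.rpow_ne_top_of_nonneg (by positivity) (ENNReal.div_ne_top (tw_ne_top _) (ho r hr))
  set K : ℝ≥0∞ := (C * (tw q / ENNReal.ofReal (q / p)) ^ (1 / q)) ^ p with hKdef
  have hK : K ≠ ⊤ := ENNReal.rpow_ne_top_of_nonneg hp.le
    (ENNReal.mul_ne_top ENNReal.coe_ne_top (hct q hq0))
  have H : ∀ f k, X μ p (T f) k ≤ K * S μ p q f.1 ^ (1 / (q / p)) := by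
    intro f k
    refine (X_le_weak _ hp k).trans ((ENNReal.rpow_le_rpow
      ((hC f).trans (mul_le_mul_right (hlor q _ hq0) _)) hp.le).trans (le_of_eq ?_))
    rw [← mul_assoc, ENNReal.mul_rpow_of_nonneg _ _ hp.le, ← ENNReal.rpow_mul]
    congr 2
    field_simp
  set τ : ℝ := q / (q - p) with hτdef
  have hqp : 0 < q - p := by linarith
  have hτ : τ * (1 - 1 / (q / p)) = 1 := by
    rw [hτdef]
    field_simp
  have hτ0 : 0 < τ := by positivity
  have hτt : 1 ≤ t / p / τ := by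
    rw [hτdef, one_le_div (by positivity), div_le_div_iff₀ hqp hp]
    rw [div_sub_div _ _ hp.ne' hq0.ne', div_le_div_iff₀ ht (by positivity)] at hpt
    nlinarith
  set K1 : ℝ≥0∞ := 2 * (tw p * (tw p * K * geo p)) with hK1
  have hK1t : K1 ≠ ⊤ := ENNReal.mul_ne_top (by norm_num) (ENNReal.mul_ne_top (tw_ne_top _)
    (ENNReal.mul_ne_top (ENNReal.mul_ne_top (tw_ne_top _) hK) (geo_ne_top hp)))
  set K2 : ℝ≥0∞ := (tw t / ENNReal.ofReal (t / p)) ^ (1 / t) * K1 ^ (1 / p) with hK2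
  have hK2t : K2 ≠ ⊤ := ENNReal.mul_ne_top (hct t ht)
    (ENNReal.rpow_ne_top_of_nonneg (by positivity) hK1t)
  refine ⟨K2.toNNReal + 1, fun g => ?_⟩
  have hp0 : ENNReal.ofReal p ≠ 0 := by simpa using hp
  rw [eLpNorm_eq_lintegral_rpow_enorm_toReal hp0 ENNReal.ofReal_ne_top,
    ENNReal.toReal_ofReal hp.le]
  by_cases hI : ∫⁻ x, ‖g.1 x‖ₑ ^ p ∂μ = ⊤
  · rw [hI, ENNReal.top_rpow_of_pos (by positivity), ENNReal.mul_top (by simp)]
    exact le_top
  have h1 := apx (fun k => X μ p (T g) (k + 1)) (fun k => tw (-(k * p)))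
    (fun k => ne_top_of_le_ne_top (ENNReal.mul_ne_top hK
      (ENNReal.rpow_ne_top_of_nonneg (by positivity) (S_lt_top hp hq0 g).ne)) (H g _))
    (fun k => tw_ne_zero _) (fun k => tw_ne_top _) (ENNReal.mul_ne_top (tw_ne_top p)
      (ENNReal.mul_ne_top (ENNReal.mul_ne_top (tw_ne_top p) hK)
        (ENNReal.mul_ne_top (geo_ne_top hp) hI))) hσ hτ
    (key_gen μ he hp hq T hT hK H g hI)
  have h2 : S μ p t (T g) ≤ (K1 * ∫⁻ x, ‖g.1 x‖ₑ ^ p ∂μ) ^ (t / p) := by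
    rw [S, ← (Equiv.addRight (1 : ℤ)).tsum_eq]
    have h3 := (tsum_rpow_le (fun k : ℤ => X μ p (T g) (k + 1) ^ τ) hτt).trans
      (ENNReal.rpow_le_rpow h1 (by positivity))
    simp only [← ENNReal.rpow_mul, mul_div_cancel₀ _ hτ0.ne'] at h3
    refine h3.trans (le_of_eq ?_)
    congr 1
    rw [hK1]
    ring
  refine (hlor t _ ht).trans ?_
  refine (mul_le_mul_right (ENNReal.rpow_le_rpow h2 (by positivity)) _).trans ?_
  rw [← ENNReal.rpow_mul, show t / p * (1 / t) = 1 / p by field_simp,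
    ENNReal.mul_rpow_of_nonneg _ _ (by positivity), ← mul_assoc]
  refine mul_le_mul_left ?_ _
  rw [ENNReal.coe_add, ENNReal.coe_toNNReal hK2t]
  exact le_self_add

end Pool.Agent.MP_f2c8fe_an.SR
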