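import Mathlib
import Pool.Agent.MP_f2c8fe_an.Sum
import Pool.Agent.MP_f2c8fe_an.SR.Dy

/-!
A finite combination of translates of weak type `(p, p)` only sees a bounded window of levels.
-/

open Finset MeasureTheory
open scoped ENNReal NNReal

namespace Pool.Agent.MP_f2c8fe_an.SR

lemma tw_lt_iff {x y : ℝ} (h : tw x < tw y) : x < y := by
  by_contra h1
  exact absurd h (not_lt.2 (tw_mono (not_lt.1 h1)))

lemma mid_le {α : Type*} [MeasurableSpace α] (μ : Measure α) {f : α → ℂ} (hf : Measurable f)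
    {p σ : ℝ} (hp : 0 < p) (hσ : 1 ≤ σ) (a : ℤ) (L : ℕ) :
    ∫⁻ x, ‖{x | tw a < ‖f x‖ₑ ∧ ‖f x‖ₑ ≤ tw (a + L)}.indicator f x‖ₑ ^ p ∂μ ≤
      tw p * ((L : ℝ≥0∞) ^ (1 - σ⁻¹) * (∑' k, X μ p f k ^ σ) ^ σ⁻¹) := by
  have hm : ∀ k : ℤ, MeasurableSet {x | tw k < ‖f x‖ₑ} := fun k =>
    measurableSet_lt measurable_const hf.enorm
  calc ∫⁻ x, ‖{x | tw a < ‖f x‖ₑ ∧ ‖f x‖ₑ ≤ tw (a + L)}.indicator f x‖ₑ ^ p ∂μ
      ≤ ∫⁻ x, ∑ k ∈ Finset.Ico a (a + L),
          {x | tw k < ‖f x‖ₑ}.indicator (fun _ => tw p * tw (k * p)) x ∂μ := by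
        refine lintegral_mono fun x => ?_
        by_cases hx : x ∈ {x | tw a < ‖f x‖ₑ ∧ ‖f x‖ₑ ≤ tw (a + L)}
        · rw [Set.indicator_of_mem hx]
          obtain ⟨k, h1, h2⟩ := exists_Ioc (y := ‖f x‖ₑ) (ne_zero_of_lt hx.1) enorm_ne_top
          have h3 := tw_lt_iff (h1.trans_le hx.2)
          have h4 := tw_lt_iff (hx.1.trans_le h2)
          have hk : k ∈ Finset.Ico a (a + L) := by
            rw [Finset.mem_Ico]
            constructor
            · exact Int.lt_add_one_iff.1 (by exact_mod_cast h4)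
            · exact_mod_cast h3
          refine le_trans ?_ (Finset.single_le_sum (f := fun k : ℤ =>
            {x | tw k < ‖f x‖ₑ}.indicator (fun _ => tw p * tw (k * p)) x)
            (fun _ _ => zero_le) hk)
          rw [Set.indicator_of_mem (by exact h1), ← tw_add]
          refine (ENNReal.rpow_le_rpow h2 hp.le).trans (le_of_eq ?_)
          rw [tw_rpow]
          congr 1
          ring
        · rw [Set.indicator_of_notMem hx]
          simp [hp]
    _ = tw p * ∑ k ∈ Finset.Ico a (a + L), 1 * X μ p f k := by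
        rw [lintegral_finsetSum _ fun k _ => measurable_const.indicator (hm k), Finset.mul_sum]
        refine Finset.sum_congr rfl fun k _ => ?_
        rw [lintegral_indicator_const (hm k), X, dd, one_mul, mul_assoc]
    _ ≤ _ := by
        refine mul_le_mul_right ((ENNReal.inner_le_weight_mul_Lp_of_nonneg _ hσ (fun _ => 1)
          (X μ p f)).trans ?_) _
        simp only [Finset.sum_const, Int.card_Ico, add_sub_cancel_left, Int.toNat_natCast,
          nsmul_eq_mul, mul_one, one_mul]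
        exact mul_le_mul_right (ENNReal.rpow_le_rpow (ENNReal.sum_le_tsum _) (by positivity)) _

variable {E : Type*} [AddCommGroup E]

lemma trOp_norm_le {N : ℕ} [NeZero N] (κ : ZMod N → ℂ) (e : E) (s : ℤ) {f : E → ℂ} {A b : ℝ}
    (hκ : ∀ x, N * ‖κ x‖ ≤ A) (hf : ∀ x, ‖f x‖ ≤ b) (x : E) : ‖trOp κ e s f x‖ ≤ A * b := by
  have hN : (0 : ℝ) < N := by exact_mod_cast Nat.pos_of_ne_zero (NeZero.ne N)
  have hA : 0 ≤ A := le_trans (by positivity) (hκ 0)
  rw [trOp, norm_mul, norm_inv, Complex.norm_natCast, inv_mul_le_iff₀ hN]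
  calc ‖∑ u : ZMod N, ∑ v : ZMod N, κ (u - v) * f (x + ((v.val : ℤ) - u.val - s) • e)‖
      ≤ ∑ _u : ZMod N, ∑ _v : ZMod N, A / N * b := by
        refine (norm_sum_le _ _).trans (Finset.sum_le_sum fun u _ =>
          (norm_sum_le _ _).trans (Finset.sum_le_sum fun v _ => ?_))
        rw [norm_mul]
        refine mul_le_mul ?_ (hf _) (norm_nonneg _) (by positivity)
        rw [le_div_iff₀ hN, mul_comm]
        exact hκ _
    _ = N * (A * b) := by
        simp only [Finset.sum_const, Finset.card_univ, ZMod.card, nsmul_eq_mul]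
        field_simp

variable [MeasurableSpace E] [MeasurableAdd E]

lemma trOp_supp (μ : Measure E) [μ.IsAddRightInvariant] {N : ℕ} [NeZero N] (κ : ZMod N → ℂ)
    (e : E) (s : ℤ) (f : E → ℂ) :
    μ {x | trOp κ e s f x ≠ 0} ≤ N * (N * μ {x | f x ≠ 0}) := by
  calc μ {x | trOp κ e s f x ≠ 0} ≤ μ (⋃ u ∈ (univ : Finset (ZMod N)), ⋃ v ∈ (univ : Finset (ZMod N)),
        (fun x => x + ((v.val : ℤ) - u.val - s) • e) ⁻¹' {x | f x ≠ 0}) := by
        refine measure_mono fun x hx => ?_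
        by_contra h
        simp only [Set.mem_iUnion, Set.mem_preimage, Set.mem_ofPred_eq, not_exists, not_not] at h
        refine hx ?_
        rw [trOp, Finset.sum_eq_zero, mul_zero]
        intro u hu
        exact Finset.sum_eq_zero fun v hv => by rw [h u hu v hv, mul_zero]
    _ ≤ ∑ _u : ZMod N, ∑ _v : ZMod N, μ {x | f x ≠ 0} := by
        refine (measure_biUnion_finset_le _ _).trans (Finset.sum_le_sum fun u _ =>
          (measure_biUnion_finset_le _ _).trans (Finset.sum_le_sum fun v _ => ?_))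
        exact (measure_preimage_add_right μ _ _).le
    _ = _ := by simp only [Finset.sum_const, Finset.card_univ, ZMod.card, nsmul_eq_mul]

open Classical in
theorem window (μ : Measure E) [μ.IsAddRightInvariant] {p q : ℝ} (hp1 : 1 < p) (hp2 : p < 2)
    (hq : p < q) {N : ℕ} [NeZero N] (κ : ZMod N → ℂ)
    (hκ : ∀ f : ZMod N → ℂ,
      ((univ.filter fun x => 2 < ‖cv κ f x‖).card : ℝ) ≤ 4 * ∑ y, ‖f y‖ ^ p)
    (e : E) (s : ℤ) {Λ : ℕ} (hΛ : 1 ≤ Λ) (hN : N ≤ 2 ^ Λ) (hκ' : ∀ x, N * ‖κ x‖ ≤ 2 ^ Λ)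
    {f : E → ℂ} (hf : Measurable f) {l : ℝ} (hl : 0 < l) :
    μ {x | 3 * l < ‖trOp κ e s f x‖} ≤
      ENNReal.ofReal ((12 * cst p + 4) * Λ ^ (1 - p / q) * l ^ (-p)) * S μ p q f ^ (p / q) := by
  have hp : 0 < p := by linarith
  have hq0 : 0 < q := by linarith
  have hσ : 1 ≤ q / p := (one_le_div hp).2 hq.le
  have hpq : p / q < 1 := (div_lt_one hq0).2 hq
  have hC := cst_pos hp1
  have hlp : 0 < l ^ (-p) := Real.rpow_pos_of_pos hl _
  have hΛ1 : (1 : ℝ) ≤ Λ := by exact_mod_cast hΛ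
  have hΛp : (1 : ℝ) ≤ (Λ : ℝ) ^ (1 - p / q) := Real.one_le_rpow hΛ1 (by linarith)
  obtain ⟨k, hk1, hk2⟩ := exists_Ico (y := ENNReal.ofReal l) (by simpa using hl)
    ENNReal.ofReal_ne_top
  have htp : tw p ≤ ENNReal.ofReal 4 := by
    refine (tw_mono hp2.le).trans (le_of_eq ?_)
    rw [tw_eq]
    norm_num
  set lo : E → ℂ := {x | ‖f x‖ₑ ≤ tw (k - Λ : ℤ)}.indicator f with hlo
  set mid : E → ℂ := {x | tw (k - Λ : ℤ) < ‖f x‖ₑ ∧
    ‖f x‖ₑ ≤ tw ((k - Λ : ℤ) + (3 * Λ : ℕ))}.indicator f with hmid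
  set hi : E → ℂ := {x | tw ((k - Λ : ℤ) + (3 * Λ : ℕ)) < ‖f x‖ₑ}.indicator f with hhi
  have hsplit : f = lo + mid + hi := by
    funext x
    simp only [hlo, hmid, hhi, Pi.add_apply, Set.indicator_apply, Set.mem_ofPred_eq]
    have h0 : tw (k - Λ : ℤ) ≤ tw ((k - Λ : ℤ) + (3 * Λ : ℕ)) :=
      tw_mono (le_add_of_nonneg_right (Nat.cast_nonneg _))
    rcases le_or_gt ‖f x‖ₑ (tw (k - Λ : ℤ)) with h1 | h1
    · rw [if_pos h1, if_neg fun h => absurd h.1 (not_lt.2 h1), if_neg (not_lt.2 (h1.trans h0))]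
      simp
    · rw [if_neg (not_le.2 h1)]
      rcases le_or_gt ‖f x‖ₑ (tw ((k - Λ : ℤ) + (3 * Λ : ℕ))) with h2 | h2
      · rw [if_pos ⟨h1, h2⟩, if_neg (not_lt.2 h2)]
        simp
      · rw [if_neg fun h => absurd h.2 (not_le.2 h2), if_pos h2]
        simp
  have hlo1 : ∀ x, ‖trOp κ e s lo x‖ ≤ l := by
    intro x
    have h1 : ∀ y, ‖lo y‖ ≤ (2 : ℝ) ^ ((k : ℝ) - Λ) := by
      intro y
      simp only [hlo, Set.indicator_apply, Set.mem_ofPred_eq]
      split_ifs with h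
      · rw [← ofReal_norm, tw_eq, ENNReal.ofReal_le_ofReal_iff (by positivity)] at h
        push_cast at h
        exact h
      · rw [norm_zero]
        positivity
    refine (trOp_norm_le κ e s hκ' h1 x).trans ?_
    rw [tw_eq, ENNReal.ofReal_le_ofReal_iff hl.le] at hk1
    rw [← Real.rpow_natCast, ← Real.rpow_add (by norm_num), add_sub_cancel]
    exact hk1
  have hsub : {x | 3 * l < ‖trOp κ e s f x‖} ⊆
      {x | 2 * l < ‖trOp κ e s mid x‖} ∪ {x | trOp κ e s hi x ≠ 0} := by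
    intro x hx
    by_contra h
    simp only [Set.mem_union, Set.mem_ofPred_eq, not_or, not_lt, not_not] at h hx
    rw [hsplit, trOp_add, trOp_add, h.2, add_zero] at hx
    linarith [norm_add_le (trOp κ e s lo x) (trOp κ e s mid x), hlo1 x, h.1]
  have hmidm : Measurable mid := hf.indicator
    ((measurableSet_lt measurable_const hf.enorm).inter (measurableSet_le hf.enorm measurable_const))
  have h1 : μ {x | 2 * l < ‖trOp κ e s mid x‖} ≤
      ENNReal.ofReal (12 * cst p * Λ ^ (1 - p / q) * l ^ (-p)) * S μ p q f ^ (p / q) := by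
    refine (weak_trOp μ hp1 hp2 κ hκ e s hmidm hl).trans ?_
    have h2 : ∫⁻ x, ENNReal.ofReal (‖mid x‖ ^ p) ∂μ = ∫⁻ x, ‖mid x‖ₑ ^ p ∂μ :=
      lintegral_congr fun x => by
        rw [← ENNReal.ofReal_rpow_of_nonneg (norm_nonneg _) hp.le, ofReal_norm]
    have h3 := mid_le μ hf hp hσ (k - Λ) (3 * Λ)
    rw [inv_div] at h3
    rw [h2]
    refine (mul_le_mul_right h3 _).trans ?_
    rw [← mul_assoc, ← mul_assoc]
    refine mul_le_mul_left ?_ _
    have h4 : ((3 * Λ : ℕ) : ℝ≥0∞) ^ (1 - p / q) ≤ ENNReal.ofReal (3 * Λ ^ (1 - p / q)) := by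
      rw [← ENNReal.ofReal_natCast, ENNReal.ofReal_rpow_of_nonneg (by positivity) (by linarith)]
      refine ENNReal.ofReal_le_ofReal ?_
      push_cast
      rw [Real.mul_rpow (by norm_num) (by positivity)]
      refine mul_le_mul_of_nonneg_right ?_ (by positivity)
      simpa using Real.rpow_le_rpow_of_exponent_le (show (1 : ℝ) ≤ 3 by norm_num)
        (show 1 - p / q ≤ 1 by linarith [div_pos hp hq0])
    refine (mul_le_mul' (mul_le_mul_right htp _) h4).trans (le_of_eq ?_)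
    rw [← ENNReal.ofReal_mul (by positivity), ← ENNReal.ofReal_mul (by positivity)]
    congr 1
    ring
  have h2 : μ {x | trOp κ e s hi x ≠ 0} ≤
      ENNReal.ofReal (4 * Λ ^ (1 - p / q) * l ^ (-p)) * S μ p q f ^ (p / q) := by
    refine (trOp_supp μ κ e s hi).trans ?_
    have h3 : μ {x | hi x ≠ 0} ≤ dd μ f (tw (k + 2 * Λ : ℤ)) := by
      refine measure_mono fun x hx => ?_
      have h4 : x ∈ {x | tw ((k - Λ : ℤ) + (3 * Λ : ℕ)) < ‖f x‖ₑ} :=
        Set.mem_of_indicator_ne_zero hx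
      have h5 : ((k + 2 * Λ : ℤ) : ℝ) = (k - Λ : ℤ) + (3 * Λ : ℕ) := by
        push_cast
        ring
      rw [h5]
      exact h4
    have h4 : X μ p f (k + 2 * Λ) ≤ S μ p q f ^ (p / q) := by
      have h5 := ENNReal.rpow_le_rpow (ENNReal.le_tsum (f := fun k => X μ p f k ^ (q / p))
        (k + 2 * Λ)) (show 0 ≤ p / q by positivity)
      rwa [← ENNReal.rpow_mul, show q / p * (p / q) = 1 by field_simp, ENNReal.rpow_one] at h5
    have h5 : (N : ℝ≥0∞) ≤ tw Λ := by
      rw [tw, ENNReal.rpow_natCast]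
      exact_mod_cast hN
    have h6 : tw (-((k + 1) * p)) ≤ ENNReal.ofReal (l ^ (-p)) := by
      rw [← ENNReal.ofReal_rpow_of_pos hl, ENNReal.rpow_neg, ← neg_mul, ← tw_rpow, tw,
        ENNReal.rpow_neg, ENNReal.inv_rpow]
      exact ENNReal.inv_le_inv.2 (ENNReal.rpow_le_rpow hk2.le hp.le)
    calc (N : ℝ≥0∞) * (N * μ {x | hi x ≠ 0})
        ≤ tw Λ * (tw Λ * dd μ f (tw (k + 2 * Λ : ℤ))) := by gcongr
      _ ≤ tw p * tw (-((k + 1) * p)) * X μ p f (k + 2 * Λ) := by
          rw [X, ← mul_assoc, ← mul_assoc, ← tw_add, ← tw_add, ← tw_add]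
          refine mul_le_mul_left (tw_mono ?_) _
          push_cast
          nlinarith
      _ ≤ ENNReal.ofReal 4 * ENNReal.ofReal (l ^ (-p)) * S μ p q f ^ (p / q) := by gcongr
      _ ≤ _ := by
          rw [← ENNReal.ofReal_mul (by norm_num)]
          refine mul_le_mul_left (ENNReal.ofReal_le_ofReal ?_) _
          nlinarith
  refine (measure_mono hsub).trans ((measure_union_le _ _).trans ((add_le_add h1 h2).trans
    (le_of_eq ?_)))
  rw [← add_mul, ← ENNReal.ofReal_add (by positivity) (by positivity)]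
  congr 2
  ring

end Pool.Agent.MP_f2c8fe_an.SR
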