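import Mathlib
import Pool.Agent.MP_f2c8fe_an.SR.Pos
import Pool.Agent.MP_f2c8fe_an.SR.Win
import Pool.Agent.MP_f2c8fe_an.SR.Ker

/-!
The negative half: an operator from `L^{p,q}` to weak `L^p` that sends an indicator function
outside `L^{p,t}` when `1/t > 1/p - 1/q`.
-/

open MeasureTheory
open scoped ENNReal NNReal

namespace Pool.Agent.MP_f2c8fe_an.SR

lemma growth2 {θ δ : ℝ} (K : ℝ) (c : ℕ) (hθ0 : 0 ≤ θ) (hθ : θ < 1) (hδ : 0 < δ) :
    ∃ m : ℕ, ∀ Λ : ℕ, 1 ≤ Λ → Λ ≤ c * (2 ^ m * (m + 1)) →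
      K ≤ ((2 ^ m : ℕ) : ℝ) * (δ * ((Λ : ℝ) ^ θ)⁻¹) := by
  set ρ : ℝ := 2 ^ (1 - θ) with hρ
  have hρ1 : 1 < ρ := Real.one_lt_rpow (by norm_num) (by linarith)
  have hε : 0 < δ / (2 * (c + 1) * (|K| + 1)) := by positivity
  obtain ⟨m, hm, hm1⟩ := (((tendsto_pow_const_div_const_pow_of_one_lt 1 hρ1).eventually
    (gt_mem_nhds hε)).and (Filter.eventually_ge_atTop 1)).exists
  refine ⟨m, fun Λ h1 h2 => ?_⟩
  have hΛ : (1 : ℝ) ≤ Λ := by exact_mod_cast h1
  have hm1' : (1 : ℝ) ≤ m := by exact_mod_cast hm1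
  have hc : (1 : ℝ) ≤ c := by
    rcases Nat.eq_zero_or_pos c with h | h
    · rw [h] at h2
      omega
    · exact_mod_cast h
  have hcm : (1 : ℝ) ≤ c * (m + 1) := by nlinarith
  have h2m : (0 : ℝ) < (2 ^ m : ℝ) ^ θ := Real.rpow_pos_of_pos (by positivity) _
  have h3 : (Λ : ℝ) ^ θ ≤ c * (m + 1) * (2 ^ m : ℝ) ^ θ := by
    have h4 : (Λ : ℝ) ≤ c * (m + 1) * 2 ^ m := by
      have : (Λ : ℝ) ≤ c * (2 ^ m * (m + 1)) := by exact_mod_cast h2
      linarith
    refine (Real.rpow_le_rpow (by linarith) h4 hθ0).trans ?_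
    rw [Real.mul_rpow (by linarith) (by positivity)]
    refine mul_le_mul_of_nonneg_right ?_ h2m.le
    simpa using Real.rpow_le_rpow_of_exponent_le hcm hθ.le
  have h4 : (2 : ℝ) ^ m = ρ ^ m * (2 ^ m : ℝ) ^ θ := by
    rw [hρ, ← Real.rpow_natCast, ← Real.rpow_natCast, ← Real.rpow_mul (by norm_num),
      ← Real.rpow_mul (by norm_num), ← Real.rpow_add (by norm_num)]
    congr 1
    ring
  have hρm : 0 < ρ ^ m := by positivity
  rw [pow_one, div_lt_div_iff₀ hρm (by positivity)] at hm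
  have hΛθ : 0 < (Λ : ℝ) ^ θ := Real.rpow_pos_of_pos (by linarith) _
  rw [← mul_assoc, ← div_eq_mul_inv, le_div_iff₀ hΛθ]
  push_cast
  have h5 : K * (Λ : ℝ) ^ θ ≤ (|K| + 1) * (c * (m + 1) * (2 ^ m : ℝ) ^ θ) :=
    mul_le_mul (by linarith [le_abs_self K]) h3 hΛθ.le (by positivity)
  have h6 : (|K| + 1) * (c * (m + 1)) ≤ δ * ρ ^ m := by
    refine le_trans ?_ hm.le
    have h7 : (c : ℝ) * (m + 1) ≤ m * (2 * (c + 1)) := by nlinarith
    have h8 := mul_le_mul_of_nonneg_left h7 (show 0 ≤ |K| + 1 by positivity)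
    linarith
  have h7 := mul_le_mul_of_nonneg_right h6 h2m.le
  calc K * (Λ : ℝ) ^ θ ≤ (|K| + 1) * (c * (m + 1)) * (2 ^ m : ℝ) ^ θ := by linarith
    _ ≤ δ * ρ ^ m * (2 ^ m : ℝ) ^ θ := h7
    _ = _ := by rw [mul_assoc, ← h4, mul_comm]

lemma weak_of {α : Type*} [MeasurableSpace α] {μ : Measure α} {f : α → ℂ} {p A : ℝ} (hp : 0 < p)
    (hA : 0 ≤ A) {I : ℝ≥0∞} (hI : I ≠ ⊤)
    (h : ∀ l, 0 < l → μ {x | l < ‖f x‖} ≤ ENNReal.ofReal (A * l ^ (-p)) * I) :
    weakNorm μ p f ≤ (ENNReal.ofReal A * I) ^ (1 / p) := by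
  have h0 : 0 ≤ A * I.toReal := mul_nonneg hA ENNReal.toReal_nonneg
  refine (weakNorm_le (B := (A * I.toReal) ^ (1 / p)) hp (Real.rpow_nonneg h0 _)
    fun l hl => (h l hl).trans (le_of_eq ?_)).trans (le_of_eq ?_)
  · rw [← Real.rpow_mul h0, one_div_mul_cancel hp.ne', Real.rpow_one, mul_right_comm,
      ENNReal.ofReal_mul (p := A * l ^ (-p)) (mul_nonneg hA (Real.rpow_nonneg hl.le _)),
      ENNReal.ofReal_toReal hI]
  · rw [← ENNReal.ofReal_rpow_of_nonneg h0 (by positivity), ENNReal.ofReal_mul hA,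
      ENNReal.ofReal_toReal hI]

theorem negative (n : ℕ) (hn : 1 ≤ n) {p q t : ℝ} (hp1 : 1 < p) (hp2 : p < 2) (hq : p < q)
    (ht : 0 < t) (hpt : 1 / p - 1 / q < 1 / t) :
    ∃ T : lorentzSpace (volume : Measure (Fin n → ℝ)) p q →ₗ[ℂ] ((Fin n → ℝ) →ₘ[volume] ℂ),
      (∀ (h : Fin n → ℝ) (f g : lorentzSpace (volume : Measure (Fin n → ℝ)) p q),
        (∀ᵐ x, g.1 x = f.1 (x - h)) → ∀ᵐ x, T g x = T f (x - h)) ∧
      (∃ C : ℝ≥0, ∀ f, weakNorm volume p (T f) ≤ C * lorentzNorm volume p q f.1) ∧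
      ∃ f, f.1 =ᵐ[volume] (Metric.ball (0 : Fin n → ℝ) (1 / 2)).indicator (fun _ => (1 : ℂ)) ∧
        lorentzNorm volume p t (T f) = ⊤ := by
  classical
  have hp0 : 0 < p := by linarith
  have hq0 : 0 < q := by linarith
  set E := Fin n → ℝ with hE
  obtain ⟨e, he⟩ : ∃ e : E, ‖e‖ = 1 :=
    ⟨Pi.single (⟨0, hn⟩ : Fin n) (1 : ℝ), (Pi.norm_single _).trans norm_one⟩
  have hB0 : volume (Metric.ball (0 : E) (1 / 2)) ≠ 0 :=
    (Metric.measure_ball_pos _ _ (by norm_num)).ne'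
  have hBtop : volume (Metric.ball (0 : E) (1 / 2)) ≠ ⊤ := measure_ball_lt_top.ne
  set β : ℝ := (volume (Metric.ball (0 : E) (1 / 2))).toReal with hβ
  have hβ0 : 0 < β := ENNReal.toReal_pos hB0 hBtop
  set γ : ℝ := (β / 2) ^ (1 / p) / 4 with hγdef
  have hγ : 0 < γ := by
    have := Real.rpow_pos_of_pos (show 0 < β / 2 by linarith) (1 / p)
    positivity
  set a : ℝ := 1 / p - 1 / q with ha
  have ha0 : 0 < a := sub_pos.2 (one_div_lt_one_div_of_lt hp0 hq)
  have hat : a * t < 1 := by rwa [lt_div_iff₀ ht] at hpt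
  have hap : a * p = 1 - p / q := by
    rw [ha]
    field_simp
  obtain ⟨c, hc⟩ := kernel_log hp1 hp2
  choose m hm using fun r : ℕ => growth2 (θ := a * t) (δ := ((4 : ℝ)⁻¹ ^ r * γ / 2) ^ t / 2) r c
    (by positivity) hat (by positivity)
  choose N hN κ nn Λ hΛ1 hΛ2 hNΛ hκΛ hweak hpos hgrow hlow using fun r : ℕ => hc (m r)
  have hΛpos : ∀ r, (0 : ℝ) < Λ r := fun r => by exact_mod_cast hΛ1 r
  set b : ℕ → ℝ := fun r => (Λ r : ℝ) ^ a with hb
  have hb0 : ∀ r, 0 < b r := fun r => Real.rpow_pos_of_pos (hΛpos r) _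
  have hbn : ∀ r (z : ℂ), ‖((b r)⁻¹ : ℂ) * z‖ = (b r)⁻¹ * ‖z‖ := fun r z => by
    rw [norm_mul, norm_inv, Complex.norm_real, Real.norm_of_nonneg (hb0 r).le]
  set s : ℕ → ℤ := fun r => ∑ i ∈ Finset.range r, 2 * (N i : ℤ) + N r with hs
  have hs_lt : ∀ r r', r < r' → s r + N r + N r' ≤ s r' := by
    intro r r' h
    have h1 : ∑ i ∈ Finset.range (r + 1), 2 * (N i : ℤ) ≤ ∑ i ∈ Finset.range r', 2 * (N i : ℤ) :=
      Finset.sum_le_sum_of_subset_of_nonneg (Finset.range_subset_range.2 h) fun _ _ _ => by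
        positivity
    rw [Finset.sum_range_succ] at h1
    simp only [hs]
    linarith
  set U : (E → ℂ) → E → ℂ := fun f x =>
    ∑' r, (4 : ℂ)⁻¹ ^ r * (((b r)⁻¹ : ℂ) * trOp (κ r) e (s r) f x) with hU
  have hUm : ∀ f, Measurable f → Measurable (U f) := fun f hf =>
    Measurable.tsum fun r => ((measurable_trOp (κ r) e (s r) hf).const_mul _).const_mul _
  have hUcongr : ∀ f g : E → ℂ, f =ᵐ[volume] g → U f =ᵐ[volume] U g := by
    intro f g h
    have h1 : ∀ᵐ x, ∀ r, trOp (κ r) e (s r) f x = trOp (κ r) e (s r) g x :=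
      ae_all_iff.2 fun r => trOp_congr volume (κ r) e (s r) h
    filter_upwards [h1] with x hx
    simp only [hU, hx]
  have hLm : ∀ f : lorentzSpace (volume : Measure E) p q, Measurable f.1 :=
    fun f => f.1.stronglyMeasurable.measurable
  have hcst := cst_pos hp1
  set C : ℝ := (12 * cst p + 4) * (2 / 3) ^ (-p) with hC
  have hC0 : 0 < C := by positivity
  have hw : ∀ f : lorentzSpace (volume : Measure E) p q, ∀ r l, 0 < l →
      volume {x | 2 * l < ‖((b r)⁻¹ : ℂ) * trOp (κ r) e (s r) f.1 x‖} ≤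
        ENNReal.ofReal (C * l ^ (-p)) * S volume p q f.1 ^ (p / q) := by
    intro f r l hl
    have hbr := hb0 r
    have h1 := window volume hp1 hp2 hq (κ r) (hweak r) e (s r) (hΛ1 r) (hNΛ r) (hκΛ r) (hLm f)
      (l := 2 / 3 * b r * l) (by positivity)
    refine le_trans (measure_mono fun x hx => ?_) (h1.trans (le_of_eq ?_))
    · simp only [Set.mem_ofPred_eq] at hx ⊢
      rw [hbn, lt_inv_mul_iff₀ hbr] at hx
      linarith
    · congr 2
      have h2 : b r ^ (-p) = ((Λ r : ℝ) ^ (1 - p / q))⁻¹ := by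
        rw [hb, ← Real.rpow_mul (hΛpos r).le, mul_neg, hap, Real.rpow_neg (hΛpos r).le]
      have h3 := Real.rpow_pos_of_pos (hΛpos r) (1 - p / q)
      rw [Real.mul_rpow (by positivity) hl.le, Real.mul_rpow (by positivity) hbr.le, h2, hC]
      generalize (Λ r : ℝ) ^ (1 - p / q) = z at h3
      field_simp
  have hSt : ∀ f : lorentzSpace (volume : Measure E) p q, S volume p q f.1 ^ (p / q) ≠ ⊤ :=
    fun f => ENNReal.rpow_ne_top_of_nonneg (by positivity) (S_lt_top hp0 hq0 f).ne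
  have hsum : ∀ f : lorentzSpace (volume : Measure E) p q, ∀ᵐ x,
      Summable fun r => (4 : ℂ)⁻¹ ^ r * (((b r)⁻¹ : ℂ) * trOp (κ r) e (s r) f.1 x) := fun f =>
    ae_summable volume hp1.le hC0.le (hSt f) _ (hw f)
  let T : lorentzSpace (volume : Measure E) p q →ₗ[ℂ] (E →ₘ[volume] ℂ) :=
    { toFun := fun f => AEEqFun.mk (U f.1) (hUm f.1 (hLm f)).aestronglyMeasurable
      map_add' := by
        intro f g
        rw [AEEqFun.mk_add_mk, AEEqFun.mk_eq_mk]
        refine (hUcongr _ _ (AEEqFun.coeFn_add f.1 g.1)).trans ?_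
        filter_upwards [hsum f, hsum g] with x h1 h2
        simp only [hU, trOp_add, mul_add, Pi.add_apply]
        exact h1.tsum_add h2
      map_smul' := by
        intro c f
        rw [AEEqFun.smul_mk, AEEqFun.mk_eq_mk]
        refine (hUcongr _ _ (AEEqFun.coeFn_smul c f.1)).trans ?_
        filter_upwards with x
        simp only [hU, trOp_smul, Pi.smul_apply, smul_eq_mul, RingHom.id_apply]
        rw [← tsum_mul_left]
        exact tsum_congr fun r => by ring }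
  have hT : ∀ f, T f =ᵐ[volume] U f.1 := fun f => AEEqFun.coeFn_mk _ _
  have hbm : Measurable (bump E) := measurable_const.indicator measurableSet_ball
  have hbS : S volume p q (bump E) < ⊤ := by
    refine (S_le_Lp hbm hp0 hq.le).trans_lt (ENNReal.rpow_lt_top_of_nonneg (by positivity)
      (ENNReal.mul_ne_top (geo_ne_top hp0) (ne_top_of_le_ne_top hBtop ?_)))
    rw [← lintegral_indicator_one measurableSet_ball]
    refine lintegral_mono fun x => ?_
    by_cases hx : x ∈ Metric.ball (0 : E) (1 / 2)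
    · rw [bump, Set.indicator_of_mem hx, Set.indicator_of_mem hx]
      simp
    · rw [bump, Set.indicator_of_notMem hx, Set.indicator_of_notMem hx]
      simp [hp0]
  set f₀ := toL hp0 hq0 (bump E) hbm hbS with hf₀
  have hf₀c : f₀.1 =ᵐ[volume] bump E := coe_toL _ _ _ _ _
  have hTf₀ : T f₀ =ᵐ[volume] U (bump E) := (hT f₀).trans (hUcongr _ _ hf₀c)
  refine ⟨T, ?_, ?_, f₀, hf₀c, ?_⟩
  · intro h f g hfg
    have h1 : ∀ᵐ x, T f (x - h) = U f.1 (x - h) :=
      (measurePreserving_sub_right volume h).quasiMeasurePreserving.ae_eq_comp (hT f)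
    filter_upwards [hT g, h1, hUcongr _ _ hfg] with x h2 h3 h4
    rw [h2, h3, h4]
    simp only [hU, trOp_translate]
  · set K : ℝ≥0∞ := (ENNReal.ofReal (2 * C * 4 ^ p) *
      (ENNReal.ofReal (q / p) * geo q) ^ (p / q)) ^ (1 / p) with hK
    have hKt : K ≠ ⊤ := ENNReal.rpow_ne_top_of_nonneg (by positivity)
      (ENNReal.mul_ne_top ENNReal.ofReal_ne_top (ENNReal.rpow_ne_top_of_nonneg (by positivity)
        (ENNReal.mul_ne_top ENNReal.ofReal_ne_top (geo_ne_top hq0))))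
    refine ⟨K.toNNReal, fun f => ?_⟩
    rw [weakNorm_congr (hT f), ENNReal.coe_toNNReal hKt]
    refine (weak_of (A := 2 * C * 4 ^ p) hp0 (by positivity) (hSt f) fun l hl => ?_).trans ?_
    · have h1 := weak_tsum volume hp1.le hC0.le _ _ (hw f) (l := l / 4) (by linarith)
      rw [mul_div_cancel₀ _ (by norm_num : (4 : ℝ) ≠ 0)] at h1
      refine h1.trans (le_of_eq ?_)
      congr 2
      rw [Real.div_rpow hl.le (by norm_num), Real.rpow_neg (show (0 : ℝ) ≤ 4 by norm_num)]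
      field_simp
    · have h1 := ENNReal.rpow_le_rpow (S_le_lorentz (μ := volume) f.1 hp0 hq0)
        (show 0 ≤ p / q by positivity)
      refine (ENNReal.rpow_le_rpow (mul_le_mul_right h1 _) (by positivity)).trans (le_of_eq ?_)
      rw [ENNReal.mul_rpow_of_nonneg (_ * geo q) _ (by positivity), ← mul_assoc,
        ENNReal.mul_rpow_of_nonneg _ _ (by positivity), ← ENNReal.rpow_mul, ← ENNReal.rpow_mul,
        show q * (p / q * (1 / p)) = 1 by field_simp, ENNReal.rpow_one]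
  · rw [lorentzNorm_congr hTf₀]
    have key : ∀ r j, ENNReal.ofReal (β / 2 * nn r j) ≤ volume
        {x | (4 : ℝ)⁻¹ ^ r * γ * (b r)⁻¹ * ((β / 2 * nn r j) ^ (1 / p))⁻¹ ≤ ‖U (bump E) x‖} := by
      intro r j
      obtain ⟨A, hA, hA'⟩ := hlow r j
      have hnn : (0 : ℝ) < nn r j := by exact_mod_cast hpos r j
      have hsub : (⋃ m ∈ A, Metric.ball ((s r + (m : ℕ)) • e) (1 / 2)) ⊆
          {x | (4 : ℝ)⁻¹ ^ r * γ * (b r)⁻¹ * ((β / 2 * nn r j) ^ (1 / p))⁻¹
            ≤ ‖U (bump E) x‖} := by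
        intro x hx
        simp only [Set.mem_iUnion] at hx
        obtain ⟨m, hm, hx⟩ := hx
        obtain ⟨h1, h2⟩ := hA' m hm
        have h3 : U (bump E) x =
            (4 : ℂ)⁻¹ ^ r * (((b r)⁻¹ : ℂ) * trOp (κ r) e (s r) (bump E) x) := by
          refine tsum_eq_single r fun r' hr' => ?_
          rw [trOp_bump_zero he (κ r') hx, mul_zero, mul_zero]
          rcases lt_or_gt_of_ne hr' with h | h
          · left
            have := hs_lt r' r h
            omega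
          · right
            have := hs_lt r r' h
            omega
        have h4 := trOp_bump he (κ r) h1 hx
        simp only [Set.mem_ofPred_eq]
        rw [h3, norm_mul, norm_pow, norm_inv, Complex.norm_ofNat, hbn, mul_assoc, mul_assoc,
          mul_left_comm γ, Real.mul_rpow (by linarith) hnn.le]
        refine mul_le_mul_of_nonneg_left
          (mul_le_mul_of_nonneg_left ?_ (inv_pos.2 (hb0 r)).le) (by positivity)
        have h5 := Real.rpow_pos_of_pos (show 0 < β / 2 by linarith) (1 / p)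
        have h6 : γ * ((β / 2) ^ (1 / p) * (nn r j : ℝ) ^ (1 / p))⁻¹
            = ((nn r j : ℝ) ^ (1 / p))⁻¹ / 4 := by
          rw [hγdef]
          field_simp
        rw [h6]
        linarith
      refine le_trans ?_ (measure_mono hsub)
      rw [measure_biUnion_finset ?_ fun _ _ => measurableSet_ball]
      · simp only [Measure.addHaar_ball_center, Finset.sum_const, nsmul_eq_mul]
        rw [← ENNReal.ofReal_toReal hBtop, ← hβ, ← ENNReal.ofReal_natCast,
          ← ENNReal.ofReal_mul (Nat.cast_nonneg _)]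
        apply ENNReal.ofReal_le_ofReal
        have : (nn r j : ℝ) ≤ 2 * A.card := by exact_mod_cast hA
        nlinarith
      · intro m _ m' _ hmm
        exact balls_disjoint he (by omega)
    have htop : ∫⁻ y in Set.Ioi (0 : ℝ), (ENNReal.ofReal (y ^ (1 / p)) *
        rearr volume (U (bump E)) y) ^ t / ENNReal.ofReal y = ⊤ := by
      refine ENNReal.eq_top_of_forall_nnreal_le fun K => ?_
      obtain ⟨r, hr⟩ := exists_nat_ge (K : ℝ)
      have hbr := hb0 r
      refine le_trans ?_ (lintegral_ge hp1.le ht (γ := (4 : ℝ)⁻¹ ^ r * γ * (b r)⁻¹)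
        (by positivity) (fun j => β / 2 * nn r j) (fun j => ?_) (fun i j hij => ?_) (key r))
      · rw [← ENNReal.ofReal_coe_nnreal]
        refine ENNReal.ofReal_le_ofReal (hr.trans ((hm r (Λ r) (hΛ1 r) (hΛ2 r)).trans
          (le_of_eq ?_)))
        congr 1
        rw [Real.rpow_mul (hΛpos r).le, ← Real.inv_rpow hbr.le, mul_div_right_comm _ (b r)⁻¹,
          Real.mul_rpow (x := (4 : ℝ)⁻¹ ^ r * γ / 2) (by positivity) (by positivity),
          mul_div_right_comm _ ((b r)⁻¹ ^ t)]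
      · have : (0 : ℝ) < nn r j := by exact_mod_cast hpos r j
        positivity
      · have : (2 : ℝ) * nn r i ≤ nn r j := by exact_mod_cast hgrow r i j hij
        nlinarith
    rw [lorentzNorm, htop, ENNReal.top_rpow_of_pos (by positivity)]

end Pool.Agent.MP_f2c8fe_an.SR
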